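import Mathlib.FieldTheory.IsAlgClosed.Basic
import Mathlib.Data.Int.Star
import Mathlib.Algebra.Order.Ring.Star
import Mathlib.RingTheory.SimpleRing.Principal
import Mathlib.RingTheory.Henselian
import Mathlib.RingTheory.RegularLocalRing.Defs
import Pool.Agent.MP_79c67d_ag.Defs
import Mathlib.RingTheory.Flat.TorsionFree
import Mathlib.RingTheory.DedekindDomain.AdicValuation
import Mathlib.RingTheory.Valuation.LocalSubring
import Mathlib.FieldTheory.RatFunc.AsPolynomial
import Mathlib.RingTheory.Valuation.Integral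
import Mathlib.RingTheory.Polynomial.IsIntegral
import Mathlib.RingTheory.Ideal.Norm.RelNorm

-- ======== part 0: formerly Pool.Agent.MP_79c67d_ag.Ord
section MrgPart0

/-! Basic calculus of orders at a place. -/

open WithZero Polynomial

set_option linter.unusedSectionVars false

namespace Pool.Agent.MP_79c67d_ag

variable {K F : Type} [Field K] [Field F] [Algebra K F]

namespace Place

variable (P : Place K F)

theorem ext' {P Q : Place K F} (h : P.v = Q.v) : P = Q := by
  cases P; cases Q; cases h; rfl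

theorem v_ne {f : F} (hf : f ≠ 0) : P.v f ≠ 0 := by simpa using hf

theorem v_eq {f : F} (hf : f ≠ 0) : P.v f = exp (-P.ord f) := by
  rw [ord, neg_neg, exp_log (P.v_ne hf)]

theorem ge_iff {f : F} (hf : f ≠ 0) {n : ℤ} : P.Ge n f ↔ n ≤ P.ord f := by
  rw [Ge, P.v_eq hf, exp_le_exp, neg_le_neg_iff]

theorem ge_zero (n : ℤ) : P.Ge n 0 := by simp [Ge]

theorem ge_iff' {f : F} {n : ℤ} : P.Ge n f ↔ f = 0 ∨ n ≤ P.ord f := by
  by_cases hf : f = 0
  · simp [hf, ge_zero]
  · simp [hf, P.ge_iff hf]

theorem ge_of_le {f : F} {n : ℤ} (h : n ≤ P.ord f) : P.Ge n f := P.ge_iff'.2 (Or.inr h)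

theorem ge_ord (f : F) : P.Ge (P.ord f) f := P.ge_of_le le_rfl

theorem ge0_iff {f : F} : P.Ge 0 f ↔ P.v f ≤ 1 := by simp [Ge]

theorem ge1_iff {f : F} : P.Ge 1 f ↔ P.v f < 1 := by
  by_cases hf : f = 0
  · simp [hf, ge_zero]
  · rw [P.ge_iff hf, P.v_eq hf, ← exp_zero, exp_lt_exp]; omega

@[simp] theorem ord_zero : P.ord 0 = 0 := by simp [ord]

@[simp] theorem ord_one : P.ord 1 = 0 := by simp [ord]

theorem ord_mul {f g : F} (hf : f ≠ 0) (hg : g ≠ 0) : P.ord (f * g) = P.ord f + P.ord g := by
  rw [ord, map_mul, log_mul (P.v_ne hf) (P.v_ne hg), ord, ord]; ring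

@[simp] theorem ord_inv (f : F) : P.ord f⁻¹ = - P.ord f := by simp [ord]

theorem ord_div {f g : F} (hf : f ≠ 0) (hg : g ≠ 0) : P.ord (f / g) = P.ord f - P.ord g := by
  rw [div_eq_mul_inv, P.ord_mul hf (inv_ne_zero hg), ord_inv]; ring

@[simp] theorem ord_neg (f : F) : P.ord (-f) = P.ord f := by simp [ord]

@[simp] theorem ord_zpow (f : F) (n : ℤ) : P.ord (f ^ n) = n * P.ord f := by
  simp [ord]

@[simp] theorem ord_pow (f : F) (n : ℕ) : P.ord (f ^ n) = n * P.ord f := by
  simp [ord]

theorem ord_prod {ι : Type*} (s : Finset ι) (f : ι → F) (hf : ∀ i ∈ s, f i ≠ 0) :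
    P.ord (∏ i ∈ s, f i) = ∑ i ∈ s, P.ord (f i) := by
  classical
  induction s using Finset.induction_on with
  | empty => simp
  | insert a s ha ih =>
    rw [Finset.prod_insert ha, Finset.sum_insert ha, P.ord_mul (hf a (by simp))
      (Finset.prod_ne_zero_iff.2 fun i hi => hf i (by simp [hi])),
      ih fun i hi => hf i (by simp [hi])]

theorem ge_const (c : K) : P.Ge 0 (algebraMap K F c) := P.ge0_iff.2 (P.triv c)

@[simp] theorem ord_const (c : K) : P.ord (algebraMap K F c) = 0 := by
  by_cases hc : c = 0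
  · simp [hc]
  have h1 := (P.ge_iff (by simpa using hc)).1 (P.ge_const c)
  have h2 := (P.ge_iff (by simpa using hc)).1 (P.ge_const c⁻¹)
  rw [map_inv₀, ord_inv] at h2
  omega

theorem ord_smul {c : K} (hc : c ≠ 0) (f : F) : P.ord (c • f) = P.ord f := by
  by_cases hf : f = 0
  · simp [hf]
  rw [Algebra.smul_def, P.ord_mul (by simpa using hc) hf]; simp

@[simp] theorem ord_natCast (n : ℕ) : P.ord (n : F) = 0 := by
  rw [← map_natCast (algebraMap K F), ord_const]

@[simp] theorem ord_intCast (n : ℤ) : P.ord (n : F) = 0 := by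
  rw [← map_intCast (algebraMap K F), ord_const]

@[simp] theorem ord_ofNat (n : ℕ) [n.AtLeastTwo] : P.ord (OfNat.ofNat n : F) = 0 :=
  P.ord_natCast n

theorem ge_one : P.Ge 0 1 := P.ge_of_le (by simp)

theorem ge_natCast (n : ℕ) : P.Ge 0 (n : F) := P.ge_of_le (by simp)

theorem ge_intCast (n : ℤ) : P.Ge 0 (n : F) := P.ge_of_le (by simp)

variable {P}

theorem Ge.mono {f : F} {m n : ℤ} (h : P.Ge n f) (hmn : m ≤ n) : P.Ge m f :=
  le_trans h (exp_le_exp.2 (by omega))

theorem Ge.add {f g : F} {n : ℤ} (hf : P.Ge n f) (hg : P.Ge n g) : P.Ge n (f + g) :=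
  (P.v.map_add f g).trans (max_le hf hg)

theorem Ge.neg {f : F} {n : ℤ} (hf : P.Ge n f) : P.Ge n (-f) := by
  simpa [Ge] using hf

theorem Ge.sub {f g : F} {n : ℤ} (hf : P.Ge n f) (hg : P.Ge n g) : P.Ge n (f - g) := by
  rw [sub_eq_add_neg]; exact hf.add hg.neg

theorem Ge.mul {f g : F} {m n : ℤ} (hf : P.Ge m f) (hg : P.Ge n g) : P.Ge (m + n) (f * g) := by
  have := mul_le_mul' hf hg
  rw [← map_mul, ← exp_add] at this
  rw [Ge, neg_add]; exact this

theorem Ge.mul0 {f g : F} {n : ℤ} (hf : P.Ge 0 f) (hg : P.Ge n g) : P.Ge n (f * g) := by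
  simpa using hf.mul hg

theorem Ge.mul0' {f g : F} {n : ℤ} (hf : P.Ge n f) (hg : P.Ge 0 g) : P.Ge n (f * g) := by
  simpa using hf.mul hg

theorem Ge.smul {f : F} {n : ℤ} (c : K) (hf : P.Ge n f) : P.Ge n (c • f) := by
  rw [Algebra.smul_def]; exact (P.ge_const c).mul0 hf

theorem Ge.pow {f : F} {n : ℤ} (hf : P.Ge n f) (m : ℕ) : P.Ge (m * n) (f ^ m) := by
  induction m with
  | zero => simpa using P.ge_one
  | succ m ih =>
    rw [pow_succ]
    exact (ih.mul hf).mono (by push_cast; linarith)

theorem Ge.pow0 {f : F} (hf : P.Ge 0 f) (m : ℕ) : P.Ge 0 (f ^ m) := by simpa using hf.pow m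

theorem ge_sum {ι : Type*} {s : Finset ι} {f : ι → F} {n : ℤ} (h : ∀ i ∈ s, P.Ge n (f i)) :
    P.Ge n (∑ i ∈ s, f i) := P.v.map_sum_le h

theorem ge_prod {ι : Type*} {s : Finset ι} {f : ι → F} (h : ∀ i ∈ s, P.Ge 0 (f i)) :
    P.Ge 0 (∏ i ∈ s, f i) :=
  Finset.prod_induction f (P.Ge 0) (fun _ _ ha hb => ha.mul0 hb) P.ge_one h

theorem Ge.le {f : F} {n : ℤ} (h : P.Ge n f) (hf : f ≠ 0) : n ≤ P.ord f := (P.ge_iff hf).1 h

theorem not_ge {f : F} {n : ℤ} : ¬ P.Ge n f ↔ f ≠ 0 ∧ P.ord f < n := by
  rw [ge_iff']; push Not; rfl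

theorem add_ne_and_ord {f g : F} (hf : f ≠ 0) (hg : P.Ge (P.ord f + 1) g) :
    f + g ≠ 0 ∧ P.ord (f + g) = P.ord f := by
  have h1 : ¬ P.Ge (P.ord f + 1) (f + g) := fun h => by
    have := (h.sub hg).le (by simpa using hf)
    simp at this
  have h2 : P.Ge (P.ord f) (f + g) := (P.ge_ord f).add (hg.mono (by omega))
  rw [not_ge] at h1
  have := h2.le h1.1
  exact ⟨h1.1, by omega⟩

theorem ne_and_ord_of_sub {f g : F} (hf : f ≠ 0) (hg : P.Ge (P.ord f + 1) (g - f)) :
    g ≠ 0 ∧ P.ord g = P.ord f := by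
  simpa using add_ne_and_ord hf hg

/-- A function congruent to a nonzero constant is a unit. -/
theorem unit_of_sub {g : F} {c : K} (hc : c ≠ 0) (hg : P.Ge 1 (g - algebraMap K F c)) :
    g ≠ 0 ∧ P.ord g = 0 := by
  simpa using ne_and_ord_of_sub (P := P) (f := algebraMap K F c) (g := g) (by simpa using hc)
    (by simpa using hg)

theorem Ge.inv_of_ord {f : F} (h : P.ord f = 0) : P.Ge 0 f⁻¹ := P.ge_of_le (by simp [h])

theorem Ge.div0 {f g : F} {n : ℤ} (hf : P.Ge n f) (hg : P.ord g = 0) : P.Ge n (f / g) := by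
  rw [div_eq_mul_inv]; exact hf.mul0' (Ge.inv_of_ord hg)

theorem Ge.of_mul {f g : F} {n : ℤ} (hg : g ≠ 0) (h : P.Ge (n + P.ord g) (f * g)) : P.Ge n f := by
  have := h.mul (P.ge_ord g⁻¹)
  rw [mul_inv_cancel_right₀ hg] at this
  simpa using this

theorem ge_mul_iff {f g : F} {n : ℤ} (hg : g ≠ 0) : P.Ge (n + P.ord g) (f * g) ↔ P.Ge n f :=
  ⟨Ge.of_mul hg, fun h => h.mul (P.ge_ord g)⟩

theorem const_eq_zero {c : K} (h : P.Ge 1 (algebraMap K F c)) : c = 0 := by
  by_contra hc
  have := h.le (by simpa using hc)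
  simp at this

theorem not_ge_one_one : ¬ P.Ge 1 1 := fun h => by
  have := h.le one_ne_zero
  simp at this

theorem ge1_or {f g : F} (hf : P.Ge 0 f) (hg : P.Ge 0 g) (h : P.Ge 1 (f * g)) :
    P.Ge 1 f ∨ P.Ge 1 g := by
  by_contra hn
  rw [not_or, not_ge, not_ge] at hn
  have h1 := hf.le hn.1.1
  have h2 := hg.le hn.2.1
  have h3 := h.le (mul_ne_zero hn.1.1 hn.2.1)
  rw [P.ord_mul hn.1.1 hn.2.1] at h3
  omega

variable (P)

theorem exists_ord (n : ℤ) : ∃ t : F, t ≠ 0 ∧ P.ord t = n := by
  obtain ⟨t, ht⟩ := P.surj (exp (-n))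
  refine ⟨t, fun h => ?_, by simp [ord, ht]⟩
  rw [h, map_zero] at ht
  exact exp_ne_zero ht.symm

/-- A chosen uniformizer. -/
noncomputable def unif : F := (P.exists_ord 1).choose

theorem unif_ne : P.unif ≠ 0 := (P.exists_ord 1).choose_spec.1

@[simp] theorem ord_unif : P.ord P.unif = 1 := (P.exists_ord 1).choose_spec.2

theorem ge_unif : P.Ge 1 P.unif := P.ge_of_le (by simp)

theorem aeval_ge {t : F} (ht : P.Ge 0 t) (q : K[X]) : P.Ge 0 (aeval t q) := by
  rw [aeval_eq_sum_range]
  exact ge_sum fun i _ => (ht.pow0 i).smul _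

theorem aeval_sub {t : F} {a : K} (ht : P.Ge 1 (t - algebraMap K F a)) (q : K[X]) :
    P.Ge 1 (aeval t q - algebraMap K F (q.eval a)) := by
  have ht0 : P.Ge 0 t := by simpa using (ht.mono zero_le_one).add (P.ge_const a)
  obtain ⟨r, hr⟩ := X_sub_C_dvd_sub_C_eval (p := q) (a := a)
  have := congrArg (aeval t) hr
  simp only [map_sub, aeval_C, map_mul, aeval_X] at this
  rw [this]
  exact ht.mul0' (P.aeval_ge ht0 r)

theorem mem_adjoin_ge {t : F} (ht : P.Ge 0 t) {f : F} (hf : f ∈ Algebra.adjoin K {t}) :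
    P.Ge 0 f := by
  rw [Algebra.adjoin_singleton_eq_range_aeval] at hf
  obtain ⟨q, rfl⟩ := hf
  exact P.aeval_ge ht q

end Place

/-- Comparison of a place with a place of a subfield having the same ring of integers. -/
theorem exists_ram {L : Type} [Field L] [Algebra K L] (j : L →+* F) (a : Place K L)
    (P : Place K F) (h : ∀ g : L, P.Ge 0 (j g) ↔ a.Ge 0 g) :
    ∃ e : ℤ, 0 < e ∧ ∀ g : L, P.ord (j g) = e * a.ord g := by
  have ht := a.unif_ne
  have h0 : ∀ g : L, g ≠ 0 → a.ord g = 0 → P.ord (j g) = 0 := by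
    intro g hg h0
    have h1 := ((h g).2 (a.ge_of_le h0.ge)).le (by simpa using hg)
    have h2 := ((h g⁻¹).2 (Place.Ge.inv_of_ord h0)).le (by simpa using hg)
    rw [map_inv₀, Place.ord_inv] at h2
    omega
  refine ⟨P.ord (j a.unif), ?_, fun g => ?_⟩
  · by_contra hn
    have h1 : P.Ge 0 (j a.unif⁻¹) := P.ge_of_le (by rw [map_inv₀, Place.ord_inv]; omega)
    have := ((h _).1 h1).le (inv_ne_zero ht)
    simp at this
  · by_cases hg : g = 0
    · simp [hg]
    have h1 := h0 (g / a.unif ^ a.ord g) (div_ne_zero hg (zpow_ne_zero _ ht))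
      (by rw [a.ord_div hg (zpow_ne_zero _ ht)]; simp)
    rw [map_div₀, map_zpow₀, P.ord_div (by simpa using hg)
      (zpow_ne_zero _ (by simpa using ht)), Place.ord_zpow] at h1
    linarith

theorem Place.ext_ord {P Q : Place K F} (h : ∀ f, f ≠ 0 → P.ord f = Q.ord f) : P = Q := by
  refine Place.ext' (Valuation.ext fun f => ?_)
  by_cases hf : f = 0
  · simp [hf]
  rw [P.v_eq hf, Q.v_eq hf, h f hf]

theorem Place.ext_ge {P Q : Place K F} (h : ∀ f, P.Ge 0 f ↔ Q.Ge 0 f) : P = Q := by
  obtain ⟨e, he, h1⟩ := exists_ram (RingHom.id F) Q P h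
  have h2 := h1 P.unif
  simp only [RingHom.id_apply, Place.ord_unif] at h2 h1
  have he1 : e = 1 := by
    rcases Int.eq_one_or_neg_one_of_mul_eq_one h2.symm with h | h <;> omega
  exact Place.ext_ord fun f _ => by rw [h1, he1, one_mul]

/-- Places are maximal: if the ring of `Q` contains the ring of `P` they are equal. -/
theorem Place.eq_of_le {P Q : Place K F} (h : ∀ f, P.Ge 0 f → Q.Ge 0 f) : P = Q := by
  refine Place.ext_ge fun f => ⟨h f, fun hf => ?_⟩
  by_contra hn
  rw [Place.not_ge] at hn
  have ht := Q.unif_ne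
  have key : ∀ n : ℕ, P.ord Q.unif ≤ n → False := by
    intro n hn'
    have h1 : P.Ge 0 (Q.unif⁻¹ * f⁻¹ ^ n) := by
      apply P.ge_of_le
      rw [P.ord_mul (inv_ne_zero ht) (pow_ne_zero _ (inv_ne_zero hn.1))]
      simp only [Place.ord_inv, Place.ord_pow]
      nlinarith [hn.2]
    have h2 := (h _ h1).mul0' (hf.pow0 n)
    rw [mul_assoc, ← mul_pow, inv_mul_cancel₀ hn.1, one_pow, mul_one] at h2
    have := h2.le (inv_ne_zero ht)
    simp at this
  exact key (P.ord Q.unif).toNat (Int.self_le_toNat _)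

section closed

variable [IsAlgClosed K]

theorem exists_const_of_algebraic {f : F} (hf : IsAlgebraic K f) : ∃ c : K, algebraMap K F c = f :=
  minpoly.mem_range_of_degree_eq_one K f
    (IsAlgClosed.degree_eq_one_of_irreducible K (minpoly.irreducible hf.isIntegral))

theorem Place.transcendental (P : Place K F) {f : F} (hf : P.ord f ≠ 0) : Transcendental K f := by
  intro h
  obtain ⟨c, rfl⟩ := exists_const_of_algebraic h
  simp at hf

theorem transcendental_iff_ne {f : F} : Transcendental K f ↔ ∀ c : K, f ≠ algebraMap K F c := by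
  refine ⟨fun h c hc => h (hc ▸ isAlgebraic_algebraMap c), fun h ha => ?_⟩
  obtain ⟨c, hc⟩ := exists_const_of_algebraic ha
  exact h c hc.symm

theorem Place.root_of_aeval (P : Place K F) {f : F} (hf : P.Ge 0 f) {q : K[X]} (hq : q ≠ 0)
    (h : P.Ge 1 (aeval f q)) : ∃ c : K, q.eval c = 0 ∧ P.Ge 1 (f - algebraMap K F c) := by
  induction hn : q.natDegree generalizing q with
  | zero =>
    rw [eq_C_of_natDegree_eq_zero hn] at h hq
    rw [aeval_C] at h
    exact absurd (by rw [Place.const_eq_zero h, map_zero]) hq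
  | succ n ih =>
    obtain ⟨c, hc⟩ := IsAlgClosed.exists_root q (by
      rw [degree_eq_natDegree hq, hn]; exact_mod_cast Nat.succ_ne_zero n)
    obtain ⟨r, hr⟩ := dvd_iff_isRoot.2 hc
    have hr0 : r ≠ 0 := by rintro rfl; simp [hr] at hq
    rw [hr, map_mul, map_sub, aeval_X, aeval_C] at h
    rcases Place.ge1_or (hf.sub (P.ge_const c)) (P.aeval_ge hf r) h with h1 | h1
    · exact ⟨c, hc, h1⟩
    · obtain ⟨d, hd, h2⟩ := ih hr0 h1 (by
        rw [hr, natDegree_mul (X_sub_C_ne_zero c) hr0, natDegree_X_sub_C] at hn; omega)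
      exact ⟨d, by rw [hr, eval_mul, hd, mul_zero], h2⟩

end closed

end Pool.Agent.MP_79c67d_ag

end MrgPart0

-- ======== part 1: formerly Pool.Agent.MP_79c67d_ag.FF
section MrgPart1

/-! Function fields of one variable: residue fields, valuation rings, places in extensions. -/

open WithZero Polynomial IsDedekindDomain
open scoped IntermediateField IntermediateField.algebraAdjoinAdjoin

set_option linter.unusedSectionVars false

namespace Pool.Agent.MP_79c67d_ag

/-- Function fields of one variable. -/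
class IsFF (K F : Type) [Field K] [Field F] [Algebra K F] : Prop where
  ess : Algebra.EssFiniteType K F
  tr : Algebra.trdeg K F = 1

variable {K F : Type} [Field K] [Field F] [Algebra K F]

theorem mem_of_isIntegral {A : Type*} [CommRing A] [Algebra A F] (O : ValuationSubring F)
    (hA : ∀ a : A, algebraMap A F a ∈ O) {x : F} (hx : IsIntegral A x) : x ∈ O := by
  obtain ⟨p, hp, hpx⟩ := hx
  let φ : A →+* O := (algebraMap A F).codRestrict O.toSubring hA
  have : IsIntegral O x := ⟨p.map φ, hp.map _, by rw [eval₂_map]; exact hpx⟩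
  obtain ⟨y, rfl⟩ := IsIntegrallyClosed.algebraMap_eq_of_integral this
  exact y.2

theorem Place.mem_iff (P : Place K F) {f : F} : f ∈ P.v.valuationSubring ↔ P.Ge 0 f := by
  rw [P.ge0_iff]; rfl

theorem Place.ge_of_isIntegral (P : Place K F) {A : Type*} [CommRing A] [Algebra A F]
    (hA : ∀ a : A, P.Ge 0 (algebraMap A F a)) {x : F} (hx : IsIntegral A x) : P.Ge 0 x :=
  P.mem_iff.1 (mem_of_isIntegral _ (fun a => P.mem_iff.2 (hA a)) hx)

theorem Place.ne_top (P : Place K F) : P.v.valuationSubring ≠ ⊤ := by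
  intro h
  have : P.unif⁻¹ ∈ P.v.valuationSubring := h ▸ ValuationSubring.mem_top _
  have := (P.mem_iff.1 this).le (inv_ne_zero P.unif_ne)
  simp at this

instance (P : Place K F) : IsDiscreteValuationRing P.v.valuationSubring := by
  have : P.v.IsNontrivial := ⟨P.unif, P.v_ne P.unif_ne, (P.ge1_iff.1 P.ge_unif).ne⟩
  infer_instance

theorem exists_hos {B : Type*} [CommRing B] [IsDedekindDomain B] [Algebra B F]
    [IsFractionRing B F] (O : ValuationSubring F) (hO : O ≠ ⊤) (hB : ∀ b : B, algebraMap B F b ∈ O) :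
    ∃ p : HeightOneSpectrum B, ∀ f, p.valuation F f ≤ 1 ↔ f ∈ O := by
  let φ : B →+* O := (algebraMap B F).codRestrict O.toSubring hB
  let I : Ideal B := (IsLocalRing.maximalIdeal O).comap φ
  have hI : ∀ b, b ∈ I ↔ O.valuation (algebraMap B F b) < 1 := fun b => by
    rw [Ideal.mem_comap, O.valuation_lt_one_iff]; rfl
  have hI' : ∀ b, b ∉ I → O.valuation (algebraMap B F b) = 1 := fun b hb =>
    le_antisymm (O.valuation_le_one_iff _ |>.2 (hB b)) (not_lt.1 fun h => hb ((hI b).2 h))
  have hne : I ≠ ⊥ := by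
    intro h
    apply hO
    rw [eq_top_iff]
    intro x _
    obtain ⟨n, d, hd, rfl⟩ := IsFractionRing.div_surjective (A := B) x
    rw [← O.valuation_le_one_iff, map_div₀, hI' d (by
      rw [h]; exact nonZeroDivisors.ne_zero hd), div_one, O.valuation_le_one_iff]
    exact hB n
  let p : HeightOneSpectrum B := ⟨I, Ideal.comap_isPrime _ _, hne⟩
  refine ⟨p, fun f => ⟨fun hf => ?_, fun hf => ?_⟩⟩
  · obtain ⟨n, d, h⟩ := p.exists_primeCompl_mul_eq_of_integer f hf
    have h1 := congrArg O.valuation h
    rw [map_mul, hI' d d.2, mul_one] at h1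
    rw [← O.valuation_le_one_iff, h1, O.valuation_le_one_iff]
    exact hB n
  · by_contra hn
    have hf0 : f ≠ 0 := by rintro rfl; simp at hn
    have h1 : p.valuation F f⁻¹ < 1 := by
      rw [map_inv₀]; exact inv_lt_one_of_one_lt₀ (not_le.1 hn)
    obtain ⟨n, d, h⟩ := p.exists_primeCompl_mul_eq_of_integer f⁻¹ h1.le
    have h2 : n ∈ I := by
      refine (p.valuation_lt_one_iff_mem (K := F) n).1 ?_
      change p.valuation F (algebraMap B F n) < 1
      rw [← h, map_mul]
      exact mul_lt_one_of_lt_of_le h1 (p.valuation_le_one _)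
    have h3 := (hI n).1 h2
    rw [← h, map_mul, hI' d d.2, mul_one, map_inv₀] at h3
    have h4 := (O.valuation_le_one_iff f).2 hf
    have h5 : O.valuation f ≠ 0 := by simpa using hf0
    exact absurd h3 (not_lt.2 ((one_le_inv₀ (zero_lt_iff.2 h5)).2 h4))

theorem isFF_adjoin {t : F} (ht : Transcendental K t) : IsFF K K⟮t⟯ where
  ess := IntermediateField.essFiniteType_iff.2 ⟨{t}, by simp⟩
  tr := by
    have h1 := trdeg_add_eq K (Algebra.adjoin K {t}) (A := K⟮t⟯)
    rw [trdeg_eq_zero (R := Algebra.adjoin K {t}), add_zero,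
      ← (Polynomial.algEquivOfTranscendental K t ht).trdeg_eq] at h1
    rw [← h1]; simp

theorem IsFF.of_finite (L : Type) [Field L] [Algebra K L] [Algebra L F] [IsScalarTower K L F]
    [h : IsFF K L] [FiniteDimensional L F] : IsFF K F where
  ess := by
    have := h.ess
    exact Algebra.EssFiniteType.comp K L F
  tr := by
    have h1 := trdeg_add_eq K L (A := F)
    rw [trdeg_eq_zero (R := L), add_zero, h.tr] at h1
    exact h1.symm

variable [hFF : IsFF K F]

theorem isTB {t : F} (ht : Transcendental K t) : IsTranscendenceBasis K (fun _ : Unit => t) :=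
  (algebraicIndependent_unique_type_iff.2 ht).isTranscendenceBasis_of_trdeg_le_of_finite
    (by rw [hFF.tr]; simp)

theorem isAlg_adjoin {t : F} (ht : Transcendental K t) :
    Algebra.IsAlgebraic (Algebra.adjoin K {t}) F := by
  have := (isTB ht).isAlgebraic
  rwa [Set.range_const] at this

theorem finDim_adjoin {t : F} (ht : Transcendental K t) : FiniteDimensional K⟮t⟯ F := by
  have h1 := (isTB ht).isAlgebraic_field
  rw [Set.range_const] at h1
  have := hFF.ess
  have := Algebra.EssFiniteType.of_comp K K⟮t⟯ F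
  exact Algebra.finite_of_essFiniteType_of_isAlgebraic

variable (K F) in
theorem exists_transcendental : ∃ t : F, Transcendental K t := by
  by_contra h
  have : Algebra.IsAlgebraic K F := ⟨fun x => by_contra fun hx => h ⟨x, hx⟩⟩
  have h1 := hFF.tr
  rw [trdeg_eq_zero] at h1
  exact zero_ne_one h1

variable [IsAlgClosed K]

theorem Place.residue (P : Place K F) {f : F} (hf : P.Ge 0 f) :
    ∃ c : K, P.Ge 1 (f - algebraMap K F c) := by
  by_cases ha : IsAlgebraic K f
  · obtain ⟨c, rfl⟩ := exists_const_of_algebraic ha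
    exact ⟨c, by simpa using P.ge_zero 1⟩
  have := isAlg_adjoin (t := f) ha
  obtain ⟨p, hp, hpt⟩ := Algebra.IsAlgebraic.isAlgebraic (R := Algebra.adjoin K {f}) P.unif
  obtain ⟨q, hq, hq0⟩ := exists_eq_pow_rootMultiplicity_mul_and_not_dvd p hp 0
  rw [hq, map_mul, map_pow, map_zero, sub_zero, aeval_X] at hpt
  have hqt : aeval P.unif q = 0 := (mul_eq_zero.1 hpt).resolve_left (pow_ne_zero _ P.unif_ne)
  rw [map_zero, sub_zero, X_dvd_iff] at hq0
  have h1 : P.Ge 1 (q.coeff 0 : F) := by
    have h2 := congrArg (aeval P.unif) (X_mul_divX_add q)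
    rw [map_add, map_mul, aeval_X, aeval_C, hqt] at h2
    have h3 : (q.coeff 0 : F) = -(P.unif * aeval P.unif q.divX) := by
      rw [eq_neg_iff_add_eq_zero, add_comm]; exact h2
    rw [h3]
    refine (P.ge_unif.mul0' ?_).neg
    rw [aeval_eq_sum_range]
    refine Place.ge_sum fun i _ => ?_
    rw [Subalgebra.smul_def, smul_eq_mul]
    exact (P.mem_adjoin_ge hf (q.divX.coeff i).2).mul0 ((P.ge_unif.mono zero_le_one).pow0 i)
  obtain ⟨r, hr⟩ := (Algebra.adjoin_singleton_eq_range_aeval K f).le (q.coeff 0).2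
  change aeval f r = _ at hr
  have hr0 : r ≠ 0 := by
    rintro rfl
    exact hq0 (Subtype.ext (by simpa using hr.symm))
  obtain ⟨c, _, hc⟩ := P.root_of_aeval hf hr0 (hr ▸ h1)
  exact ⟨c, hc⟩

open Classical in
/-- The value of a function at a place where it is regular. -/
noncomputable def Place.val (P : Place K F) (f : F) : K :=
  if h : P.Ge 0 f then (P.residue h).choose else 0

theorem Place.sub_val (P : Place K F) {f : F} (hf : P.Ge 0 f) :
    P.Ge 1 (f - algebraMap K F (P.val f)) := by
  rw [Place.val, dif_pos hf]; exact (P.residue hf).choose_spec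

theorem Place.val_eq {P : Place K F} {f : F} {c : K} (h : P.Ge 1 (f - algebraMap K F c)) :
    P.val f = c := by
  have hf : P.Ge 0 f := by simpa using (h.mono zero_le_one).add (P.ge_const c)
  have := h.sub (P.sub_val hf)
  rw [sub_sub_sub_cancel_left, ← map_sub] at this
  exact sub_eq_zero.1 (Place.const_eq_zero this)

theorem Place.exists_functional (P : Place K F) (n : ℤ) :
    ∃ φ : F →ₗ[K] K, ∀ f, P.Ge n f → (φ f = 0 ↔ P.Ge (n + 1) f) := by
  let W : Submodule K F :=
    { carrier := {f | P.Ge (n + 1) f}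
      add_mem' := fun ha hb => Place.Ge.add ha hb
      zero_mem' := P.ge_zero _
      smul_mem' := fun c _ ha => Place.Ge.smul c ha }
  obtain ⟨t, ht, htn⟩ := P.exists_ord n
  have htW : t ∉ W := fun h => by
    have := Place.Ge.le h ht
    omega
  obtain ⟨φ, hφ, hW⟩ := W.exists_le_ker_of_notMem htW
  refine ⟨φ, fun f hf => ⟨fun h => ?_, fun h => hW h⟩⟩
  have h1 : P.Ge 0 (f / t) := by
    have := hf.mul (P.ge_ord t⁻¹)
    rw [Place.ord_inv, htn] at this
    simpa [div_eq_mul_inv] using this
  obtain ⟨c, hc⟩ := P.residue h1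
  have h2 : f - c • t ∈ W := by
    have := hc.mul (P.ge_ord t)
    rw [htn, sub_mul, div_mul_cancel₀ _ ht, add_comm, ← Algebra.smul_def] at this
    exact this
  have h3 := hW h2
  rw [LinearMap.mem_ker, map_sub, map_smul, h, zero_sub, neg_eq_zero, smul_eq_mul] at h3
  rw [(mul_eq_zero.1 h3).resolve_right hφ, zero_smul, sub_zero] at h2
  exact h2

variable [CharZero K]

/-- Every proper valuation subring containing the constants is the ring of a place. -/
theorem exists_place (O : ValuationSubring F) (hO : O ≠ ⊤) (hK : ∀ c : K, algebraMap K F c ∈ O) :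
    ∃ P : Place K F, ∀ f, P.Ge 0 f ↔ f ∈ O := by
  obtain ⟨x, hx⟩ : ∃ x, x ∉ O := by
    by_contra h
    exact hO (eq_top_iff.2 fun x _ => by_contra fun hx => h ⟨x, hx⟩)
  have ht : x⁻¹ ∈ O := (O.mem_or_inv_mem x).resolve_left hx
  have htr : Transcendental K x⁻¹ := transcendental_iff_ne.2 fun c hc => hx (by
    rw [← inv_inv x, hc, ← map_inv₀]; exact hK _)
  set t := x⁻¹
  let A := Algebra.adjoin K {t}
  have : IsPrincipalIdealRing A := IsPrincipalIdealRing.of_surjective _
    (Polynomial.algEquivOfTranscendental K t htr).surjective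
  have := finDim_adjoin htr
  have : CharZero F := charZero_of_injective_algebraMap (algebraMap K F).injective
  have := integralClosure.isDedekindDomain A K⟮t⟯ F
  have := integralClosure.isFractionRing_of_finite_extension K⟮t⟯ F (A := A)
  have hA : ∀ a : A, algebraMap A F a ∈ O := by
    rintro ⟨a, ha⟩
    change a ∈ O
    induction ha using Algebra.adjoin_induction with
    | mem x hx => rw [hx]; exact ht
    | algebraMap r => exact hK r
    | add x y _ _ hx hy => exact O.add_mem _ _ hx hy
    | mul x y _ _ hx hy => exact O.mul_mem _ _ hx hy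
  obtain ⟨p, hp⟩ := exists_hos (B := integralClosure A F) O hO
    fun b => mem_of_isIntegral O hA (x := b.1) b.2
  refine ⟨⟨p.valuation F, p.valuation_surjective F, fun c => (hp _).2 (hK c)⟩, fun f => ?_⟩
  rw [Place.ge0_iff]; exact hp f

theorem exists_place_pos {t : F} (ht : Transcendental K t) : ∃ P : Place K F, 0 < P.ord t := by
  have ht0 : t ≠ 0 := by rintro rfl; exact ht isAlgebraic_zero
  let A := (Algebra.adjoin K {t}).toSubring
  let t' : A := ⟨t, Algebra.subset_adjoin rfl⟩
  have hI : Ideal.span {t'} ≠ ⊤ := by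
    rw [Ne, Ideal.span_singleton_eq_top]
    intro h
    obtain ⟨⟨u, hu⟩, h1⟩ := h.exists_right_inv
    have hu' : u ∈ Algebra.adjoin K {t} := hu
    rw [Algebra.adjoin_singleton_eq_range_aeval] at hu'
    obtain ⟨q, rfl⟩ := hu'
    have h2 : t * aeval t q = 1 := congrArg Subtype.val h1
    refine ht ⟨X * q - 1, fun h => ?_, by simp [h2]⟩
    have := congrArg (eval 0) h
    simp at this
  obtain ⟨O, hA, hO⟩ := Ideal.image_subset_nonunits_valuationSubring _ hI
  have h1 : t ∈ O.nonunits := hO ⟨t', Ideal.subset_span rfl, rfl⟩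
  have h2 : t⁻¹ ∉ O := by
    rw [← inv_inv t] at h1
    exact (O.inv_mem_nonunits_iff.1 h1).resolve_left (inv_ne_zero ht0)
  obtain ⟨P, hP⟩ := exists_place (K := K) O (fun h => h2 (h ▸ ValuationSubring.mem_top _))
    fun c => hA ((Algebra.adjoin K {t}).algebraMap_mem c)
  refine ⟨P, ?_⟩
  have := (Place.not_ge.1 (mt (hP _).1 h2)).2
  simpa using this

theorem const_of_regular {f : F} (h : ∀ P : Place K F, P.Ge 0 f) : ∃ c : K, f = algebraMap K F c := by
  by_contra hn
  have h1 : Transcendental K f⁻¹ := transcendental_iff_ne.2 fun c hc => hn ⟨c⁻¹, by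
    rw [map_inv₀, ← hc, inv_inv]⟩
  obtain ⟨P, hP⟩ := exists_place_pos h1
  have hf : f ≠ 0 := fun h0 => hn ⟨0, by simp [h0]⟩
  have := (h P).le hf
  rw [Place.ord_inv] at hP
  omega

end Pool.Agent.MP_79c67d_ag

end MrgPart1

-- ======== part 2: formerly Pool.Agent.MP_79c67d_ag.FF.Basic
section MrgPart2

set_option autoImplicit false

namespace Pool.Agent.MP_79c67d_ag.FF

open WithZero Polynomial
open Pool.Agent.MP_79c67d_ag.Place (ord)

variable {K F : Type} [Field K] [Field F] [Algebra K F]

theorem place_ext {P Q : Place K F} (h : ∀ g, P.v g = Q.v g) : P = Q := by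
  cases P
  cases Q
  congr
  exact Valuation.ext h

theorem v_const (P : Place K F) {c : K} (hc : c ≠ 0) : P.v (algebraMap K F c) = 1 := by
  refine le_antisymm (P.triv c) ?_
  have h1 := P.triv c⁻¹
  have h2 : P.v (algebraMap K F c) * P.v (algebraMap K F c⁻¹) = 1 := by
    rw [← map_mul, ← map_mul, mul_inv_cancel₀ hc, map_one, map_one]
  calc (1 : WithZero (Multiplicative ℤ))
      = P.v (algebraMap K F c) * P.v (algebraMap K F c⁻¹) := h2.symm
    _ ≤ P.v (algebraMap K F c) * 1 := by gcongr
    _ = _ := mul_one _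

theorem v_eq_one_of_sub (P : Place K F) {g : F} {c : K} (hc : c ≠ 0)
    (h : P.v (g - algebraMap K F c) < 1) : P.v g = 1 := by
  have := P.v.map_add_eq_of_lt_left (x := algebraMap K F c) (y := g - algebraMap K F c)
    (by rwa [v_const P hc])
  rwa [add_sub_cancel, v_const P hc] at this

theorem v_eq_exp (P : Place K F) {g : F} (hg : g ≠ 0) : P.v g = exp (- ord P g) := by
  rw [ord, neg_neg, exp_log]
  simpa using hg

theorem ord_eq {P : Place K F} {g : F} {n : ℤ} (h : P.v g = exp n) : ord P g = - n := by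
  rw [ord, h, log_exp]

theorem ord_of_one {P : Place K F} {g : F} (h : P.v g = 1) : ord P g = 0 := by
  rw [ord, h, log_one, neg_zero]

@[simp] theorem ord_zero (P : Place K F) : ord P 0 = 0 := by simp [ord]

@[simp] theorem ord_one (P : Place K F) : ord P 1 = 0 := ord_of_one (map_one _)

@[simp] theorem ord_neg (P : Place K F) (g : F) : ord P (-g) = ord P g := by
  simp [ord]

theorem ord_const (P : Place K F) (c : K) : ord P (algebraMap K F c) = 0 := by
  rcases eq_or_ne c 0 with rfl | hc
  · simp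
  · exact ord_of_one (v_const P hc)

theorem ord_mul (P : Place K F) {g h : F} (hg : g ≠ 0) (hh : h ≠ 0) :
    ord P (g * h) = ord P g + ord P h := by
  rw [ord_eq (n := - ord P g + - ord P h)
    (by rw [map_mul, v_eq_exp P hg, v_eq_exp P hh, exp_add])]
  ring

theorem ord_inv (P : Place K F) (g : F) : ord P g⁻¹ = - ord P g := by
  rcases eq_or_ne g 0 with rfl | hg
  · simp
  have := ord_mul P hg (inv_ne_zero hg)
  rw [mul_inv_cancel₀ hg, ord_one] at this
  omega

theorem ord_div (P : Place K F) {g h : F} (hg : g ≠ 0) (hh : h ≠ 0) :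
    ord P (g / h) = ord P g - ord P h := by
  rw [div_eq_mul_inv, ord_mul P hg (inv_ne_zero hh), ord_inv]
  ring

theorem ord_pow (P : Place K F) (g : F) (n : ℕ) : ord P (g ^ n) = n * ord P g := by
  rcases eq_or_ne g 0 with rfl | hg
  · rcases n with _ | n <;> simp
  induction n with
  | zero => simp
  | succ n ih =>
    rw [pow_succ, ord_mul P (pow_ne_zero _ hg) hg, ih]
    push_cast
    ring

theorem ord_zpow (P : Place K F) (g : F) (n : ℤ) : ord P (g ^ n) = n * ord P g := by
  rcases n with n | n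
  · simp [ord_pow]
  · rw [zpow_negSucc, ord_inv, ord_pow, Int.negSucc_eq]
    push_cast
    ring

theorem ord_prod {ι : Type} (P : Place K F) (s : Finset ι) (g : ι → F) (hg : ∀ i ∈ s, g i ≠ 0) :
    ord P (∏ i ∈ s, g i) = ∑ i ∈ s, ord P (g i) := by
  classical
  induction s using Finset.induction_on with
  | empty => simp
  | insert a s ha ih =>
    rw [Finset.prod_insert ha, Finset.sum_insert ha,
      ord_mul P (hg a (Finset.mem_insert_self _ _))
        (Finset.prod_ne_zero_iff.2 fun i hi => hg i (Finset.mem_insert_of_mem hi)),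
      ih fun i hi => hg i (Finset.mem_insert_of_mem hi)]

theorem ord_smul (P : Place K F) {c : K} (hc : c ≠ 0) (g : F) : ord P (c • g) = ord P g := by
  rw [ord, ord, Algebra.smul_def, map_mul, v_const P hc, one_mul]

theorem v_le_exp_iff (P : Place K F) {g : F} (hg : g ≠ 0) (n : ℤ) :
    P.v g ≤ exp n ↔ - n ≤ ord P g := by
  rw [v_eq_exp P hg, exp_le_exp]
  omega

theorem ge_iff (P : Place K F) {g : F} (hg : g ≠ 0) (n : ℤ) : P.Ge n g ↔ n ≤ ord P g := by
  rw [Place.Ge, v_le_exp_iff P hg, neg_neg]

theorem ge_zero_iff (P : Place K F) (g : F) : P.Ge 0 g ↔ P.v g ≤ 1 := by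
  rw [Place.Ge, neg_zero, exp_zero]

theorem ge_one_iff (P : Place K F) (g : F) : P.Ge 1 g ↔ P.v g < 1 := by
  rcases eq_or_ne g 0 with rfl | hg
  · simp [Place.Ge]
  rw [ge_iff P hg, v_eq_exp P hg, ← exp_zero, exp_lt_exp]
  omega

theorem v_le_one_iff (P : Place K F) {g : F} (hg : g ≠ 0) : P.v g ≤ 1 ↔ 0 ≤ ord P g := by
  rw [← exp_zero, v_le_exp_iff P hg, neg_zero]

theorem v_lt_one_iff (P : Place K F) {g : F} (hg : g ≠ 0) : P.v g < 1 ↔ 0 < ord P g := by
  rw [v_eq_exp P hg, ← exp_zero, exp_lt_exp]
  omega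

theorem v_eq_one_iff (P : Place K F) {g : F} (hg : g ≠ 0) : P.v g = 1 ↔ ord P g = 0 := by
  rw [v_eq_exp P hg, ← exp_zero, exp_inj]
  omega

theorem one_lt_v_iff (P : Place K F) (g : F) : 1 < P.v g ↔ ord P g < 0 := by
  rcases eq_or_ne g 0 with rfl | hg
  · simp
  rw [← not_le, v_le_one_iff P hg, not_le]

theorem v_le_v_iff (P : Place K F) {g h : F} (hg : g ≠ 0) (hh : h ≠ 0) :
    P.v g ≤ P.v h ↔ ord P h ≤ ord P g := by
  rw [v_eq_exp P hg, v_eq_exp P hh, exp_le_exp]
  omega

theorem v_lt_v_iff (P : Place K F) {g h : F} (hg : g ≠ 0) (hh : h ≠ 0) :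
    P.v g < P.v h ↔ ord P h < ord P g := by
  rw [← not_le, v_le_v_iff P hh hg, not_le]

theorem ord_nonneg {P : Place K F} {g : F} (h : P.v g ≤ 1) : 0 ≤ ord P g := by
  rcases eq_or_ne g 0 with rfl | hg
  · simp
  · exact (v_le_one_iff P hg).1 h

theorem v_le_one_of_ord {P : Place K F} {g : F} (h : 0 ≤ ord P g) : P.v g ≤ 1 := by
  rcases eq_or_ne g 0 with rfl | hg
  · simp
  · exact (v_le_one_iff P hg).2 h

theorem min_le_ord_add (P : Place K F) {g h : F} (hgh : g + h ≠ 0) (hg : g ≠ 0) (hh : h ≠ 0) :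
    min (ord P g) (ord P h) ≤ ord P (g + h) := by
  rcases le_max_iff.1 (P.v.map_add g h) with h1 | h1
  · exact (min_le_left _ _).trans ((v_le_v_iff P hgh hg).1 h1)
  · exact (min_le_right _ _).trans ((v_le_v_iff P hgh hh).1 h1)

theorem ord_add_of_lt (P : Place K F) {g h : F} (hg : g ≠ 0) (hh : h ≠ 0)
    (hlt : ord P g < ord P h) : ord P (g + h) = ord P g := by
  rw [ord, ord, P.v.map_add_eq_of_lt_left ((v_lt_v_iff P hh hg).2 hlt)]

theorem exists_unif (P : Place K F) : ∃ t : F, t ≠ 0 ∧ ord P t = 1 := by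
  obtain ⟨t, ht⟩ := P.surj (exp (-1))
  refine ⟨t, ?_, by rw [ord_eq ht]; simp⟩
  rintro rfl
  rw [map_zero] at ht
  exact exp_ne_zero ht.symm

theorem exists_ord_eq (P : Place K F) (n : ℤ) : ∃ t : F, t ≠ 0 ∧ ord P t = n := by
  obtain ⟨t, ht0, ht⟩ := exists_unif P
  exact ⟨t ^ n, zpow_ne_zero _ ht0, by rw [ord_zpow, ht, mul_one]⟩

theorem v_mul_lt {P : Place K F} {u z : F} (hu : P.v u < 1) (hz : P.v z ≤ 1) :
    P.v (u * z) < 1 := by
  rw [map_mul]
  exact (mul_le_of_le_one_right' hz).trans_lt hu

theorem v_mul_le {P : Place K F} {u z : F} (hu : P.v u ≤ 1) (hz : P.v z ≤ 1) :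
    P.v (u * z) ≤ 1 := by
  rw [map_mul]
  exact mul_le_one' hu hz

/-- Two places with the same valuation ring are equal. -/
theorem eq_of_le_one_iff {P Q : Place K F} (h : ∀ g, P.v g ≤ 1 ↔ Q.v g ≤ 1) : P = Q := by
  have h0 : ∀ g, g ≠ 0 → (0 ≤ ord P g ↔ 0 ≤ ord Q g) := fun g hg => by
    rw [← v_le_one_iff P hg, ← v_le_one_iff Q hg, h]
  have h1 : ∀ g, g ≠ 0 → (ord P g ≤ 0 ↔ ord Q g ≤ 0) := fun g hg => by
    have := h0 g⁻¹ (inv_ne_zero hg)
    rw [ord_inv, ord_inv] at this
    omega
  obtain ⟨t, ht0, ht⟩ := exists_unif P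
  have key : ∀ g, g ≠ 0 → ord Q g = ord P g * ord Q t := fun g hg => by
    have hne : g * t ^ (- ord P g) ≠ 0 := mul_ne_zero hg (zpow_ne_zero _ ht0)
    have e1 : ord P (g * t ^ (- ord P g)) = 0 := by
      rw [ord_mul P hg (zpow_ne_zero _ ht0), ord_zpow, ht]
      ring
    have e2 : ord Q (g * t ^ (- ord P g)) = 0 :=
      le_antisymm ((h1 _ hne).1 e1.le) ((h0 _ hne).1 e1.ge)
    rw [ord_mul Q hg (zpow_ne_zero _ ht0), ord_zpow] at e2
    linarith
  obtain ⟨s, hs0, hs⟩ := exists_unif Q
  have hpos : 0 ≤ ord Q t := (h0 t ht0).1 (by omega)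
  have hone : ord Q t = 1 := by
    have h2 : ord Q t ∣ 1 := ⟨ord P s, by rw [← hs, key s hs0, mul_comm]⟩
    rcases Int.isUnit_iff.1 (isUnit_of_dvd_one h2) with h3 | h3 <;> omega
  refine place_ext fun g => ?_
  rcases eq_or_ne g 0 with rfl | hg
  · simp
  rw [v_eq_exp P hg, v_eq_exp Q hg, key g hg, hone, mul_one]

theorem eq_of_isEquiv {P Q : Place K F} (h : P.v.IsEquiv Q.v) : P = Q :=
  eq_of_le_one_iff fun _ => h.le_one_iff_le_one

/-- If the valuation ring of `P` is contained in that of `Q` then the places are equal. -/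
theorem eq_of_le_one_imp {P Q : Place K F} (h : ∀ g, P.v g ≤ 1 → Q.v g ≤ 1) : P = Q := by
  refine eq_of_le_one_iff fun g => ⟨h g, fun hg => ?_⟩
  by_contra hP
  have hg0 : g ≠ 0 := by
    rintro rfl
    simp at hP
  rw [v_le_one_iff P hg0, not_le] at hP
  obtain ⟨s, hs0, hs⟩ := exists_unif Q
  have hne : s⁻¹ * g⁻¹ ^ (ord P s).natAbs ≠ 0 :=
    mul_ne_zero (inv_ne_zero hs0) (pow_ne_zero _ (inv_ne_zero hg0))
  have h1 : 0 ≤ ord P (s⁻¹ * g⁻¹ ^ (ord P s).natAbs) := by
    rw [ord_mul P (inv_ne_zero hs0) (pow_ne_zero _ (inv_ne_zero hg0)), ord_pow, ord_inv, ord_inv]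
    have : ord P s ≤ ((ord P s).natAbs : ℤ) := Int.le_natAbs
    nlinarith [Int.natCast_nonneg (ord P s).natAbs]
  have h2 := ord_nonneg (h _ (v_le_one_of_ord h1))
  have h3 : ord Q g = 0 := by
    have h4 := ord_nonneg (h g⁻¹ (v_le_one_of_ord (by rw [ord_inv]; omega)))
    have h5 := ord_nonneg hg
    rw [ord_inv] at h4
    omega
  rw [ord_mul Q (inv_ne_zero hs0) (pow_ne_zero _ (inv_ne_zero hg0)), ord_pow, ord_inv, ord_inv,
    h3, hs] at h2
  simp at h2

theorem const_unique {P : Place K F} {g : F} {a b : K} (ha : P.v (g - algebraMap K F a) < 1)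
    (hb : P.v (g - algebraMap K F b) < 1) : a = b := by
  by_contra hab
  have h1 : P.v (algebraMap K F (b - a)) = 1 := v_const P (sub_ne_zero.2 (Ne.symm hab))
  have h2 : algebraMap K F (b - a) = (g - algebraMap K F a) - (g - algebraMap K F b) := by
    rw [map_sub]
    ring
  rw [h2] at h1
  exact (P.v.map_sub_lt ha hb).ne h1

theorem v_le_one_of_sub {P : Place K F} {g : F} {a : K} (ha : P.v (g - algebraMap K F a) < 1) :
    P.v g ≤ 1 := by
  have : g = (g - algebraMap K F a) + algebraMap K F a := by ring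
  rw [this]
  exact P.v.map_add_le ha.le (P.triv a)

theorem v_aeval_le {P : Place K F} {y : F} (hy : P.v y ≤ 1) (p : K[X]) : P.v (aeval y p) ≤ 1 := by
  induction p using Polynomial.induction_on' with
  | add p q hp hq =>
    rw [map_add]
    exact P.v.map_add_le hp hq
  | monomial n a =>
    rw [aeval_monomial]
    refine v_mul_le (P.triv a) ?_
    rw [map_pow]
    exact pow_le_one' hy n

theorem v_aeval_sub_lt {P : Place K F} {y : F} {a : K} (hy : P.v (y - algebraMap K F a) < 1)
    (p : K[X]) : P.v (aeval y p - algebraMap K F (p.eval a)) < 1 := by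
  obtain ⟨q, hq⟩ := X_sub_C_dvd_sub_C_eval (a := a) (p := p)
  have := congrArg (aeval y) hq
  simp only [map_sub, map_mul, aeval_C, aeval_X] at this
  rw [this]
  exact v_mul_lt hy (v_aeval_le (v_le_one_of_sub hy) q)

theorem v_aeval_eq_one {P : Place K F} {y : F} {a : K} (hy : P.v (y - algebraMap K F a) < 1)
    {p : K[X]} (hp : p.eval a ≠ 0) : P.v (aeval y p) = 1 :=
  v_eq_one_of_sub P hp (v_aeval_sub_lt hy p)

open Classical in
/-- The value of a function at a place (zero if there is none). -/
noncomputable def val (P : Place K F) (g : F) : K :=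
  if h : ∃ c : K, P.v (g - algebraMap K F c) < 1 then h.choose else 0

theorem val_eq {P : Place K F} {g : F} {a : K} (ha : P.v (g - algebraMap K F a) < 1) :
    val P g = a := by
  have h : ∃ c : K, P.v (g - algebraMap K F c) < 1 := ⟨a, ha⟩
  rw [val, dif_pos h]
  exact const_unique h.choose_spec ha

@[simp] theorem val_const (P : Place K F) (c : K) : val P (algebraMap K F c) = c :=
  val_eq (by simp)

/-- An element integral over a subring of the valuation ring has no pole. -/
theorem v_le_one_of_isIntegral {R : Type} [CommRing R] [Algebra R F] {P : Place K F}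
    (hR : ∀ r : R, P.v (algebraMap R F r) ≤ 1) {g : F} (hg : IsIntegral R g) : P.v g ≤ 1 := by
  let : Algebra R P.v.integer := ((algebraMap R F).codRestrict P.v.integer hR).toAlgebra
  have : IsScalarTower R P.v.integer F := IsScalarTower.of_algebraMap_eq fun _ => rfl
  exact (Valuation.integer.integers P.v).mem_of_integral hg.tower_top

theorem v_le_one_of_mem_adjoin {P : Place K F} {S : Set F} (hS : ∀ s ∈ S, P.v s ≤ 1) {g : F}
    (hg : g ∈ Algebra.adjoin K S) : P.v g ≤ 1 := by
  induction hg using Algebra.adjoin_induction with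
  | mem x hx => exact hS x hx
  | algebraMap r => exact P.triv r
  | add x y _ _ hx hy => exact P.v.map_add_le hx hy
  | mul x y _ _ hx hy => exact v_mul_le hx hy

section rat

variable (K) in
/-- The field is the rational function field in `x`. -/
structure IsRat {L : Type} [Field L] [Algebra K L] (x : L) : Prop where
  trans : Transcendental K x
  gen : ∀ y : L, ∃ p q : K[X], q ≠ 0 ∧ y = aeval x p / aeval x q

variable {L : Type} [Field L] [Algebra K L]

theorem IsRat.aeval_ne_zero {x : L} (hx : IsRat K x) {p : K[X]} (hp : p ≠ 0) : aeval x p ≠ 0 :=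
  fun h => hp (transcendental_iff.1 hx.trans p h)

theorem IsRat.ne_zero {x : L} (hx : IsRat K x) : x ≠ 0 := by
  simpa using hx.aeval_ne_zero (p := X) X_ne_zero

theorem aeval_eq_reverse {x : L} (hx : x ≠ 0) (p : K[X]) :
    aeval x p = aeval x⁻¹ p.reverse * x ^ p.natDegree := by
  let := invertibleOfNonzero hx
  have := eval₂_reverse_mul_pow (algebraMap K L) x p
  rw [invOf_eq_inv] at this
  exact this.symm

theorem div_eq_reverse {x : L} (hx : x ≠ 0) (p q : K[X]) :
    aeval x p / aeval x q =
      aeval x⁻¹ (p.reverse * X ^ q.natDegree) / aeval x⁻¹ (q.reverse * X ^ p.natDegree) := by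
  rw [aeval_eq_reverse hx p, aeval_eq_reverse hx q]
  simp only [map_mul, map_pow, aeval_X, inv_pow]
  have h1 := pow_ne_zero p.natDegree hx
  have h2 := pow_ne_zero q.natDegree hx
  rcases eq_or_ne (aeval x⁻¹ q.reverse) 0 with h | h
  · simp [h]
  · field_simp

theorem IsRat.inv {x : L} (hx : IsRat K x) : IsRat K x⁻¹ where
  trans := fun h => hx.trans (IsAlgebraic.inv_iff.1 h)
  gen := fun y => by
    obtain ⟨p, q, hq, rfl⟩ := hx.gen y
    exact ⟨_, _, mul_ne_zero (by simpa using hq) (pow_ne_zero _ X_ne_zero),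
      div_eq_reverse hx.ne_zero p q⟩

theorem isRat_ratFunc : IsRat K (RatFunc.X : RatFunc K) where
  trans := RatFunc.transcendental_X
  gen := fun y => ⟨y.num, y.denom, y.denom_ne_zero, by
    rw [RatFunc.aeval_X_left_eq_algebraMap, RatFunc.aeval_X_left_eq_algebraMap,
      RatFunc.num_div_denom]⟩

theorem isRat_adjoin {x : F} (hx : Transcendental K x) :
    IsRat K (IntermediateField.AdjoinSimple.gen K x) where
  trans := fun h => hx (by
    simpa using h.algHom (IntermediateField.adjoin K {x}).val)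
  gen := fun y => by
    obtain ⟨p, q, h⟩ := (IntermediateField.mem_adjoin_simple_iff K y.1).1 y.2
    have e : ∀ r : K[X], ((aeval (IntermediateField.AdjoinSimple.gen K x) r :
        IntermediateField.adjoin K {x}) : F) = aeval x r := fun r =>
      (aeval_algHom_apply (IntermediateField.adjoin K {x}).val _ r).symm
    rcases eq_or_ne q 0 with rfl | hq
    · refine ⟨0, 1, one_ne_zero, Subtype.ext ?_⟩
      simp [h]
    · refine ⟨p, q, hq, Subtype.ext ?_⟩
      rw [h, IntermediateField.coe_div, e, e]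

end rat

end Pool.Agent.MP_79c67d_ag.FF

end MrgPart2

-- ======== part 3: formerly Pool.Agent.MP_79c67d_ag.FF.Ded
section MrgPart3

set_option autoImplicit false

namespace Pool.Agent.MP_79c67d_ag.FF

open WithZero Polynomial IsDedekindDomain
open Pool.Agent.MP_79c67d_ag.Place (ord)

/-- A proper valuation subring that contains a Dedekind domain is the ring of a prime. -/
theorem exists_prime_of_valuationSubring {B F : Type} [CommRing B] [IsDedekindDomain B] [Field F]
    [Algebra B F] [IsFractionRing B F] (O : ValuationSubring F) (hO : O ≠ ⊤)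
    (hB : ∀ b : B, algebraMap B F b ∈ O) :
    ∃ p : HeightOneSpectrum B, (p.valuation F).valuationSubring = O := by
  have hB' : ∀ b : B, O.valuation (algebraMap B F b) ≤ 1 := fun b =>
    (O.valuation_le_one_iff _).2 (hB b)
  have hmul : ∀ {u z : F}, O.valuation u < 1 → O.valuation z ≤ 1 → O.valuation (u * z) < 1 := by
    intro u z hu hz
    rw [map_mul]
    exact (mul_le_of_le_one_right' hz).trans_lt hu
  let I : Ideal B :=
    { carrier := {b | O.valuation (algebraMap B F b) < 1}
      zero_mem' := by simp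
      add_mem' := fun ha hb => by
        simp only [Set.mem_ofPred_eq, map_add] at *
        exact O.valuation.map_add_lt ha hb
      smul_mem' := fun c b hb => by
        simp only [Set.mem_ofPred_eq, smul_eq_mul, map_mul (algebraMap B F)] at *
        rw [mul_comm]
        exact hmul hb (hB' c) }
  have hI : ∀ b, b ∈ I ↔ O.valuation (algebraMap B F b) < 1 := fun b => Iff.rfl
  have hI1 : ∀ b, b ∉ I → O.valuation (algebraMap B F b) = 1 := fun b hb =>
    le_antisymm (hB' b) (not_lt.1 hb)
  have hprime : I.IsPrime := by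
    refine ⟨?_, fun {a b} hab => ?_⟩
    · rw [Ideal.ne_top_iff_one, hI]
      simp
    · by_contra hcon
      push Not at hcon
      rw [hI, map_mul, map_mul, hI1 a hcon.1, hI1 b hcon.2] at hab
      simp at hab
  have hne : I ≠ ⊥ := by
    intro hbot
    apply hO
    rw [eq_top_iff]
    intro z _
    obtain ⟨a, b, hb, rfl⟩ := IsFractionRing.div_surjective (A := B) z
    have hb1 : b ∉ I := by
      rw [hbot, Ideal.mem_bot]
      exact nonZeroDivisors.ne_zero hb
    rw [← O.valuation_le_one_iff, map_div₀, hI1 b hb1, div_one]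
    exact hB' a
  refine ⟨⟨I, hprime, hne⟩, ?_⟩
  rw [← HeightOneSpectrum.valuationSubringAtPrime_eq_valuationSubring]
  apply ValuationSubring.eq_of_le_of_ne_top _ _ hO
  rintro z ⟨a, s, hs, rfl⟩
  rw [← O.valuation_le_one_iff, map_mul, map_inv₀, hI1 s hs, inv_one, mul_one]
  exact hB' a

variable {K F : Type} [Field K] [Field F] [Algebra K F]

theorem valuationSubring_ne_top (P : Place K F) : P.v.valuationSubring ≠ ⊤ := by
  obtain ⟨t, ht0, ht⟩ := exists_ord_eq P (-1)
  intro htop
  have : t ∈ P.v.valuationSubring := htop ▸ ValuationSubring.mem_top _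
  have := ord_nonneg ((Valuation.mem_valuationSubring_iff _ _).1 this)
  omega

section core

variable [Algebra K[X] F] [IsScalarTower K K[X] F]
  (B : Type) [CommRing B] [IsDedekindDomain B] [Algebra K[X] B] [Algebra B F]
  [IsFractionRing B F] [IsScalarTower K[X] B F]

omit [Algebra K F] [IsScalarTower K K[X] F] [IsDedekindDomain B] [IsFractionRing B F] in
theorem alg_tower (r : K[X]) : algebraMap K[X] F r = algebraMap B F (algebraMap K[X] B r) :=
  IsScalarTower.algebraMap_apply _ _ _ _

theorem alg_C (c : K) : algebraMap K[X] F (C c) = algebraMap K F c :=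
  (IsScalarTower.algebraMap_apply K K[X] F c).symm

theorem alg_aeval (r : K[X]) : algebraMap K[X] F r = aeval (algebraMap K[X] F X) r := by
  have := aeval_algHom_apply (IsScalarTower.toAlgHom K K[X] F) X r
  rw [aeval_X_left_apply] at this
  exact this.symm

variable {B} in
variable (K F) in
/-- The place attached to a nonzero prime. -/
noncomputable def toPlace (p : HeightOneSpectrum B) : Place K F where
  v := p.valuation F
  surj := p.valuation_surjective F
  triv := fun c => by
    rw [← alg_C, alg_tower B]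
    exact p.valuation_le_one _

theorem toPlace_v (p : HeightOneSpectrum B) : (toPlace K F p).v = p.valuation F := rfl

theorem toPlace_injective : Function.Injective (toPlace K F (B := B)) := by
  intro p q h
  apply HeightOneSpectrum.eq_of_valuation_isEquiv_valuation (K := F)
  have : p.valuation F = q.valuation F := congrArg Place.v h
  rw [this]

theorem ord_toPlace (p : HeightOneSpectrum B) {b : B} (hb : b ≠ 0) :
    ord (toPlace K F p) (algebraMap B F b) = multiplicity p.asIdeal (Ideal.span {b}) := by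
  show -log (p.valuation F (algebraMap B F b)) = _
  rw [p.valuation_of_algebraMap, p.intValuation_eq_exp_neg_multiplicity hb, log_exp, neg_neg]

theorem finite_multiplicity {I : Ideal B} (hI : I ≠ ⊥) :
    {p : HeightOneSpectrum B | multiplicity p.asIdeal I ≠ 0}.Finite :=
  (Ideal.finite_factors hI).subset fun _ hp => multiplicity_ne_zero.1 hp

variable [Algebra.IsIntegral K[X] B]

theorem range_toPlace :
    Set.range (toPlace K F (B := B)) = {P | P.v (algebraMap K[X] F X) ≤ 1} := by
  ext P
  constructor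
  · rintro ⟨p, rfl⟩
    show p.valuation F _ ≤ 1
    rw [alg_tower B]
    exact p.valuation_le_one _
  · intro hP
    have h1 : ∀ r : K[X], P.v (algebraMap K[X] F r) ≤ 1 := fun r => by
      rw [alg_aeval]
      exact v_aeval_le hP r
    obtain ⟨p, hp⟩ := exists_prime_of_valuationSubring (B := B) _ (valuationSubring_ne_top P)
      fun b => v_le_one_of_isIntegral h1
        (Algebra.IsIntegral.isIntegral (R := K[X]) b).algebraMap
    exact ⟨p, eq_of_isEquiv ((Valuation.isEquiv_iff_valuationSubring _ _).2 hp)⟩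

include B in
theorem core_finite {h : F} (hh : h ≠ 0) :
    {P : Place K F | P.v (algebraMap K[X] F X) ≤ 1 ∧ ord P h ≠ 0}.Finite := by
  obtain ⟨a, b, hb, rfl⟩ := IsFractionRing.div_surjective (A := B) h
  have hb0 := nonZeroDivisors.ne_zero hb
  have ha0 : a ≠ 0 := by
    rintro rfl
    simp at hh
  have hne : ∀ c : B, c ≠ 0 → algebraMap B F c ≠ 0 := fun c hc =>
    (map_ne_zero_iff _ (IsFractionRing.injective B F)).2 hc
  refine (((finite_multiplicity B (I := Ideal.span {a}) (by simpa using ha0)).union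
    (finite_multiplicity B (I := Ideal.span {b}) (by simpa using hb0))).image
      (toPlace K F)).subset ?_
  rintro P ⟨h1, h2⟩
  obtain ⟨p, rfl⟩ : P ∈ Set.range (toPlace K F (B := B)) := by
    rw [range_toPlace]
    exact h1
  refine ⟨p, ?_, rfl⟩
  by_contra hcon
  simp only [Set.mem_union, Set.mem_ofPred_eq, not_or, not_not] at hcon
  rw [ord_div _ (hne a ha0) (hne b hb0), ord_toPlace B p ha0, ord_toPlace B p hb0, hcon.1,
    hcon.2] at h2
  simp at h2

include B in
theorem core_integral {h : F}
    (hh : ∀ P : Place K F, P.v (algebraMap K[X] F X) ≤ 1 → P.v h ≤ 1) : IsIntegral K[X] h := by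
  obtain ⟨b, rfl⟩ := HeightOneSpectrum.mem_integers_of_valuation_le_one (R := B) F h fun p =>
    hh (toPlace K F p) (by
      have : toPlace K F p ∈ Set.range (toPlace K F (B := B)) := ⟨p, rfl⟩
      rwa [range_toPlace] at this)
  exact (Algebra.IsIntegral.isIntegral (R := K[X]) b).algebraMap

variable [IsAlgClosed K]

omit [Algebra K[X] F] [IsScalarTower K K[X] F] in
theorem exists_root_of_v_lt {P : Place K F} {g : F} (hg : P.v g ≤ 1) {f : K[X]} (hf : f ≠ 0)
    (h : P.v (aeval g f) < 1) : ∃ c : K, P.v (g - algebraMap K F c) < 1 := by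
  by_contra hcon
  push Not at hcon
  have h1 : ∀ c : K, P.v (g - algebraMap K F c) = 1 := fun c =>
    le_antisymm (P.v.map_sub_le hg (P.triv c)) (hcon c)
  have h2 : P.v (aeval g f) = 1 := by
    rw [(IsAlgClosed.splits f).eq_prod_roots, map_mul, aeval_C, map_mul,
      v_const P (leadingCoeff_ne_zero.2 hf), one_mul, map_multiset_prod, map_multiset_prod,
      Multiset.map_map, Multiset.map_map]
    refine Multiset.prod_eq_one fun y hy => ?_
    obtain ⟨c, -, rfl⟩ := Multiset.mem_map.1 hy
    simpa using h1 c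
  exact h.ne h2

theorem residue_int {P : Place K F} {a : K}
    (ha : P.v (algebraMap K[X] F X - algebraMap K F a) < 1) {g : F} (hg : IsIntegral K[X] g) :
    ∃ c : K, P.v (g - algebraMap K F c) < 1 := by
  have h1 : ∀ r : K[X], P.v (algebraMap K[X] F r) ≤ 1 := fun r => by
    rw [alg_aeval]
    exact v_aeval_le (v_le_one_of_sub ha) r
  have hg1 := v_le_one_of_isIntegral h1 hg
  obtain ⟨f, hf, hfg⟩ := hg
  refine exists_root_of_v_lt hg1 (hf.map (evalRingHom a)).ne_zero ?_
  have e : aeval g (f.map (evalRingHom a)) = ∑ i ∈ Finset.range (f.natDegree + 1),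
      - ((algebraMap K[X] F (f.coeff i) - algebraMap K F ((f.coeff i).eval a)) * g ^ i) := by
    rw [eval₂_eq_sum_range] at hfg
    rw [aeval_def, eval₂_map, eval₂_eq_sum_range]
    simp only [sub_mul, neg_sub, Finset.sum_sub_distrib, hfg, sub_zero]
    rfl
  rw [e]
  refine P.v.map_sum_lt one_ne_zero fun i _ => ?_
  rw [Valuation.map_neg]
  refine v_mul_lt ?_ ?_
  · rw [alg_aeval]
    exact v_aeval_sub_lt ha _
  · rw [map_pow]
    exact pow_le_one' hg1 i

theorem exists_under (p : HeightOneSpectrum B) :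
    ∃ a : K, (toPlace K F p).v (algebraMap K[X] F X - algebraMap K F a) < 1 := by
  have hp := p.isPrime
  obtain ⟨f, hf, hf0⟩ := Submodule.exists_mem_ne_zero_of_ne_bot
    (Ideal.under_ne_bot K[X] p.ne_bot)
  refine exists_root_of_v_lt (f := f) ?_ hf0 ?_
  · rw [toPlace_v, alg_tower B]
    exact p.valuation_le_one _
  · rw [← alg_aeval, toPlace_v, alg_tower B]
    exact (p.valuation_lt_one_iff_mem _).2 hf

include B in
theorem core_residue {P : Place K F} (hP : P.v (algebraMap K[X] F X) ≤ 1) {g : F}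
    (hg : P.v g ≤ 1) : ∃ c : K, P.v (g - algebraMap K F c) < 1 := by
  obtain ⟨p, rfl⟩ : P ∈ Set.range (toPlace K F (B := B)) := by
    rw [range_toPlace]
    exact hP
  obtain ⟨a, ha⟩ := exists_under (K := K) (F := F) B p
  obtain ⟨n, d, hnd⟩ := p.exists_primeCompl_mul_eq_of_integer g hg
  obtain ⟨cn, hcn⟩ := residue_int ha
    (Algebra.IsIntegral.isIntegral (R := K[X]) n).algebraMap (g := algebraMap B F n)
  obtain ⟨cd, hcd⟩ := residue_int ha
    (Algebra.IsIntegral.isIntegral (R := K[X]) (d : B)).algebraMap (g := algebraMap B F d)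
  have hd1 : (toPlace K F p).v (algebraMap B F d) = 1 := (p.valuation_eq_one_iff_notMem).2 d.2
  have hcd0 : cd ≠ 0 := by
    rintro rfl
    rw [map_zero, sub_zero] at hcd
    exact hcd.ne hd1
  refine ⟨cn / cd, ?_⟩
  have hc : algebraMap K F cd ≠ 0 := by simpa using hcd0
  have e : g - algebraMap K F (cn / cd) = ((algebraMap B F n - algebraMap K F cn) -
      (algebraMap B F d - algebraMap K F cd) * g) * algebraMap K F cd⁻¹ := by
    rw [← hnd, map_div₀, map_inv₀]
    field_simp
    ring
  rw [e]
  exact v_mul_lt ((toPlace K F p).v.map_sub_lt hcn (v_mul_lt hcd hg)) ((toPlace K F p).triv _)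

variable [Module.IsTorsionFree K[X] B] [Module.Finite K[X] B] [CharZero K]

theorem relNorm_prime (p : HeightOneSpectrum B) :
    Ideal.relNorm K[X] p.asIdeal =
      Ideal.span {X - C (val (toPlace K F p) (algebraMap K[X] F X))} := by
  obtain ⟨a, ha⟩ := exists_under (K := K) (F := F) B p
  rw [val_eq ha]
  have hp := p.isPrime
  have hpm := p.isMaximal
  obtain ⟨m, hm⟩ : ∃ m : Ideal K[X], m = Ideal.span {X - C a} := ⟨_, rfl⟩
  have hmax : m.IsMaximal :=
    hm ▸ PrincipalIdealRing.isMaximal_of_irreducible (irreducible_X_sub_C a)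
  rw [← hm]
  have hmem : X - C a ∈ Ideal.under K[X] p.asIdeal := by
    rw [← alg_C, ← map_sub, toPlace_v, alg_tower B] at ha
    exact (p.valuation_lt_one_iff_mem _).1 ha
  have hlies : p.asIdeal.LiesOver m :=
    ⟨hmax.eq_of_le (Ideal.IsPrime.under K[X] p.asIdeal).ne_top
      (hm ▸ (Ideal.span_singleton_le_iff_mem _).2 hmem)⟩
  have hdeg : p.asIdeal.inertiaDeg K[X] = 1 := by
    rw [Ideal.inertiaDeg_eq_of_isMaximal m]
    let : Field (K[X] ⧸ m) := Ideal.Quotient.field _
    let : Field (B ⧸ p.asIdeal) := Ideal.Quotient.field _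
    apply Module.finrank_of_bijective_algebraMap
    refine ⟨RingHom.injective _, fun z => ?_⟩
    obtain ⟨z, rfl⟩ := Ideal.Quotient.mk_surjective z
    obtain ⟨c, hc⟩ := residue_int ha
      (Algebra.IsIntegral.isIntegral (R := K[X]) z).algebraMap (g := algebraMap B F z)
    rw [← alg_C, alg_tower B, ← map_sub] at hc
    refine ⟨Ideal.Quotient.mk _ (C c), ?_⟩
    rw [Ideal.Quotient.algebraMap_mk_of_liesOver, eq_comm, Ideal.Quotient.eq]
    exact (p.valuation_lt_one_iff_mem _).1 hc
  have : CharZero (FractionRing K[X]) :=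
    charZero_of_injective_algebraMap (algebraMap K (FractionRing K[X])).injective
  rw [Ideal.relNorm_eq_pow_of_isMaximal p.asIdeal m, hdeg, pow_one]

theorem finsum_ideal {M : Type} [AddCommGroup M] (w : K → M) (I : Ideal B) (hI : I ≠ ⊥)
    (g : K[X]) (hg : Ideal.relNorm K[X] I = Ideal.span {g}) :
    ∑ᶠ p : HeightOneSpectrum B, (multiplicity p.asIdeal I : ℤ) •
      w (val (toPlace K F p) (algebraMap K[X] F X)) = (g.roots.map w).sum := by
  classical
  induction I using UniqueFactorizationMonoid.induction_on_prime generalizing g with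
  | h₁ => exact absurd rfl hI
  | h₂ I hu =>
    have h1 : ∀ p : HeightOneSpectrum B, multiplicity p.asIdeal I = 0 := fun p =>
      multiplicity_eq_zero.2 fun h => p.prime.not_isUnit (isUnit_of_dvd_unit h hu)
    obtain rfl := Ideal.isUnit_iff.1 hu
    rw [Ideal.relNorm_top, eq_comm, Ideal.span_singleton_eq_top] at hg
    have h2 : g.roots = 0 := by
      rw [(associated_one_iff_isUnit.2 hg).roots_eq, roots_one]
      rfl
    simp [h1, h2]
  | h₃ J q hJ hq ih =>
    let Q : HeightOneSpectrum B := ⟨q, Ideal.isPrime_of_prime hq, hq.ne_zero⟩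
    have h1 : ∀ p : HeightOneSpectrum B, (multiplicity p.asIdeal (q * J) : ℤ) •
        w (val (toPlace K F p) (algebraMap K[X] F X))
        = (if p = Q then w (val (toPlace K F p) (algebraMap K[X] F X)) else 0)
          + (multiplicity p.asIdeal J : ℤ) • w (val (toPlace K F p) (algebraMap K[X] F X)) := by
      intro p
      rw [multiplicity_mul p.prime (FiniteMultiplicity.of_prime_left p.prime hI), Nat.cast_add,
        add_zsmul]
      congr 1
      split_ifs with h
      · subst h
        rw [multiplicity_self, Nat.cast_one, one_zsmul]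
      · rw [multiplicity_eq_zero.2]
        · rw [Nat.cast_zero, zero_zsmul]
        · intro hd
          apply h
          ext1
          exact associated_iff_eq.1 ((p.prime.dvd_prime_iff_associated hq).1 hd)
    obtain ⟨g', hg'⟩ := (IsPrincipalIdealRing.principal (Ideal.relNorm K[X] J)).principal
    have hg0 : g' ≠ 0 := by
      rintro rfl
      apply hJ
      rw [Submodule.span_zero_singleton] at hg'
      exact Ideal.relNorm_eq_bot_iff.1 hg'
    have hQ := relNorm_prime (K := K) (F := F) B Q
    have hass : Associated g ((X - C (val (toPlace K F Q) (algebraMap K[X] F X))) * g') := by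
      rw [← Ideal.span_singleton_eq_span_singleton, ← hg, map_mul, ← Ideal.span_singleton_mul_span_singleton,
        ← hQ, hg']
    simp only [h1]
    rw [finsum_add_distrib, finsum_eq_single _ Q (fun p hp => if_neg hp), if_pos rfl,
      ih hJ g' hg', hass.roots_eq, roots_mul (mul_ne_zero (X_sub_C_ne_zero _) hg0), roots_X_sub_C]
    · simp
    · exact (Set.finite_singleton Q).subset fun p hp => by
        by_contra h
        exact hp (if_neg h)
    · exact (finite_multiplicity B hJ).subset fun p hp h =>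
        hp (by simp only [h, Nat.cast_zero, zero_zsmul])

theorem finsum_int {M : Type} [AddCommGroup M] (w : K → M) {b : B} (hb : b ≠ 0) :
    ∑ᶠ P ∈ {P : Place K F | P.v (algebraMap K[X] F X) ≤ 1},
      ord P (algebraMap B F b) • w (val P (algebraMap K[X] F X)) =
        ((Algebra.intNorm K[X] B b).roots.map w).sum := by
  rw [← range_toPlace B, finsum_mem_range (toPlace_injective B)]
  simp only [ord_toPlace B _ hb]
  exact finsum_ideal B w _ (by simpa using hb) _ (Ideal.relNorm_singleton K[X] b)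

end core

end Pool.Agent.MP_79c67d_ag.FF

end MrgPart3

-- ======== part 4: formerly Pool.Agent.MP_79c67d_ag.FF.Norm
section MrgPart4

set_option autoImplicit false

namespace Pool.Agent.MP_79c67d_ag.FF

open WithZero Polynomial IsDedekindDomain
open Pool.Agent.MP_79c67d_ag.Place (ord)

variable {K L F : Type} [Field K] [Field L] [Field F] [Algebra K L] [Algebra L F] [Algebra K F]
  [IsScalarTower K L F] [FiniteDimensional L F] [CharZero K] {x : L}

variable (F) in
/-- The integral closure of `K[x]` in `F`. -/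
theorem IsRat.elim {motive : Prop} (hx : IsRat K x)
    (h : ∀ [Algebra K[X] L] [Algebra K[X] F] [IsScalarTower K K[X] L] [IsScalarTower K K[X] F]
      [IsScalarTower K[X] L F] [IsFractionRing K[X] L] (B : Type) [CommRing B]
      [IsDedekindDomain B] [Algebra K[X] B] [Algebra B F] [IsFractionRing B F]
      [IsScalarTower K[X] B F] [IsIntegralClosure B K[X] F] [Module.Finite K[X] B]
      [Module.IsTorsionFree K[X] B], (∀ r : K[X], algebraMap K[X] L r = aeval x r) →
      algebraMap K[X] F X = algebraMap L F x → motive) : motive := by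
  let : Algebra K[X] L := (aeval x).toRingHom.toAlgebra
  let : Algebra K[X] F := ((algebraMap L F).comp (aeval x).toRingHom).toAlgebra
  have e : ∀ r : K[X], algebraMap K[X] L r = aeval x r := fun _ => rfl
  have : IsScalarTower K K[X] L := IsScalarTower.of_algebraMap_eq fun c => by
    rw [e, algebraMap_eq, aeval_C]
  have : IsScalarTower K[X] L F := IsScalarTower.of_algebraMap_eq fun _ => rfl
  have : IsScalarTower K K[X] F := IsScalarTower.of_algebraMap_eq fun c => by
    rw [IsScalarTower.algebraMap_apply K[X] L F, ← IsScalarTower.algebraMap_apply K K[X] L,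
      ← IsScalarTower.algebraMap_apply K L F]
  have : FaithfulSMul K[X] L := (faithfulSMul_iff_algebraMap_injective _ _).2
    (transcendental_iff_injective.1 hx.trans)
  have : IsFractionRing K[X] L := IsFractionRing.of_field _ _ fun z => by
    obtain ⟨p, q, -, h⟩ := hx.gen z
    exact ⟨p, q, h⟩
  have : CharZero L := charZero_of_injective_algebraMap (algebraMap K L).injective
  have : IsDedekindDomain (integralClosure K[X] F) := integralClosure.isDedekindDomain K[X] L F
  have : IsFractionRing (integralClosure K[X] F) F :=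
    integralClosure.isFractionRing_of_finite_extension L F
  have : Module.Finite K[X] (integralClosure K[X] F) := IsIntegralClosure.finite K[X] L F _
  have : FaithfulSMul K[X] F := (faithfulSMul_iff_algebraMap_injective _ _).2
    ((algebraMap L F).injective.comp (transcendental_iff_injective.1 hx.trans))
  have : Module.IsTorsionFree K[X] (integralClosure K[X] F) :=
    IsIntegralClosure.isTorsionFree K[X] F
  refine h (integralClosure K[X] F) e ?_
  rw [IsScalarTower.algebraMap_apply K[X] L F, e, aeval_X]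

omit [FiniteDimensional L F] [CharZero K] in
theorem map_aeval (r : K[X]) : algebraMap L F (aeval x r) = aeval (algebraMap L F x) r :=
  (aeval_algebraMap_apply F x r).symm

omit [IsScalarTower K L F] [FiniteDimensional L F] [CharZero K] [Algebra K L] in
theorem le_one_or (P : Place K F) (x : L) :
    P.v (algebraMap L F x) ≤ 1 ∨ P.v (algebraMap L F x⁻¹) ≤ 1 := by
  rw [map_inv₀]
  exact P.v.val_le_one_or_val_inv_le_one _

/-- A nonzero function has finitely many zeros and poles. -/
theorem IsRat.finite_ord (hx : IsRat K x) {h : F} (hh : h ≠ 0) :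
    {P : Place K F | ord P h ≠ 0}.Finite := by
  have key : ∀ {y : L}, IsRat K y →
      {P : Place K F | P.v (algebraMap L F y) ≤ 1 ∧ ord P h ≠ 0}.Finite := fun {y} hy =>
    hy.elim F fun B _ _ _ _ _ _ _ _ _ _ e => e ▸ core_finite B hh
  refine ((key hx).union (key hx.inv)).subset fun P hP => ?_
  rcases le_one_or P x with h1 | h1
  · exact Or.inl ⟨h1, hP⟩
  · exact Or.inr ⟨h1, hP⟩

/-- A function without poles where `x` is regular satisfies a monic equation over `K[x]`. -/
theorem IsRat.exists_monic (hx : IsRat K x) {h : F}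
    (hh : ∀ P : Place K F, P.v (algebraMap L F x) ≤ 1 → P.v h ≤ 1) :
    ∃ f : K[X][X], f.Monic ∧ eval₂ (aeval (algebraMap L F x)).toRingHom h f = 0 :=
  hx.elim F fun B _ _ _ _ _ _ _ _ _ _ e => by
    obtain ⟨f, hf, hfh⟩ := core_integral (K := K) B (h := h) (e ▸ hh)
    refine ⟨f, hf, ?_⟩
    rw [← hfh, ← e]
    congr 1
    exact RingHom.ext fun r => (alg_aeval r).symm

theorem IsRat.isIntegral (hx : IsRat K x) {h : F}
    (hh : ∀ P : Place K F, P.v (algebraMap L F x) ≤ 1 → P.v h ≤ 1) :
    IsIntegral (Algebra.adjoin K {algebraMap L F x}) h := by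
  obtain ⟨f, hf, hfh⟩ := hx.exists_monic hh
  let φ : K[X] →+* Algebra.adjoin K {algebraMap L F x} :=
    (aeval (algebraMap L F x)).toRingHom.codRestrict _ fun r => aeval_mem_adjoin_singleton K _
  refine ⟨f.map φ, hf.map _, ?_⟩
  rw [eval₂_map]
  exact hfh

/-- Every proper valuation subring that contains the constants is the ring of a place. -/
theorem IsRat.exists_place_of_valuationSubring (hx : IsRat K x) (O : ValuationSubring F)
    (hO : O ≠ ⊤) (hK : ∀ c : K, algebraMap K F c ∈ O) :
    ∃ P : Place K F, P.v.valuationSubring = O := by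
  have key : ∀ {y : L}, IsRat K y → algebraMap L F y ∈ O →
      ∃ P : Place K F, P.v.valuationSubring = O := fun {y} hy hyO =>
    hy.elim F fun B _ _ _ _ _ _ _ _ _ _ e => by
      have h1 : ∀ r : K[X], algebraMap K[X] F r ∈ O := fun r => by
        rw [alg_aeval, e]
        induction r using Polynomial.induction_on' with
        | add p q hp hq =>
          rw [map_add]
          exact add_mem hp hq
        | monomial n a =>
          rw [aeval_monomial]
          exact mul_mem (hK a) (pow_mem hyO n)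
      obtain ⟨p, hp⟩ := exists_prime_of_valuationSubring (B := B) O hO fun b => by
        let : Algebra K[X] O := ((algebraMap K[X] F).codRestrict O h1).toAlgebra
        have : IsScalarTower K[X] O F := IsScalarTower.of_algebraMap_eq fun _ => rfl
        have hb : IsIntegral O (algebraMap B F b) :=
          (Algebra.IsIntegral.isIntegral (R := K[X]) b).algebraMap.tower_top
        obtain ⟨z, hz⟩ := (isIntegrallyClosed_iff F).1 (inferInstance : IsIntegrallyClosed O) hb
        exact hz ▸ z.2
      exact ⟨toPlace K F p, hp⟩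
  rcases O.mem_or_inv_mem (algebraMap L F x) with h1 | h1
  · exact key hx h1
  · exact key hx.inv (by rwa [map_inv₀])

variable [IsAlgClosed K]

/-- The residue field of a place is the field of constants. -/
theorem IsRat.residue (hx : IsRat K x) (P : Place K F) {g : F} (hg : P.v g ≤ 1) :
    ∃ c : K, P.v (g - algebraMap K F c) < 1 := by
  have key : ∀ {y : L}, IsRat K y → P.v (algebraMap L F y) ≤ 1 →
      ∃ c : K, P.v (g - algebraMap K F c) < 1 := fun {y} hy hP =>
    hy.elim F fun B _ _ _ _ _ _ _ _ _ _ e => core_residue B (e ▸ hP) hg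
  rcases le_one_or P x with h1 | h1
  · exact key hx h1
  · exact key hx.inv h1

theorem IsRat.val_spec (hx : IsRat K x) (P : Place K F) {g : F} (hg : P.v g ≤ 1) :
    P.v (g - algebraMap K F (val P g)) < 1 := by
  obtain ⟨c, hc⟩ := hx.residue P hg
  rwa [val_eq hc]

/-- The norm formula with weights: the zeros and poles of `h` where `x` is regular, pushed forward
by `x`, are the zeros and poles of the norm of `h`. -/
theorem IsRat.norm_weight (hx : IsRat K x) {M : Type} [AddCommGroup M] (w : K → M) {h : F}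
    (hh : h ≠ 0) {p q : K[X]} (hq : q ≠ 0) (hN : Algebra.norm L h = aeval x p / aeval x q) :
    ∑ᶠ P ∈ {P : Place K F | P.v (algebraMap L F x) ≤ 1},
      ord P h • w (val P (algebraMap L F x)) = (p.roots.map w).sum - (q.roots.map w).sum :=
  hx.elim F fun B _ _ _ _ _ _ _ _ _ eL e => by
    obtain ⟨a, b, hb, rfl⟩ := IsFractionRing.div_surjective (A := B) h
    have hb0 := nonZeroDivisors.ne_zero hb
    have ha0 : a ≠ 0 := by
      rintro rfl
      simp at hh
    have hne : ∀ c : B, c ≠ 0 → algebraMap B F c ≠ 0 := fun c hc =>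
      (map_ne_zero_iff _ (IsFractionRing.injective B F)).2 hc
    have h1 := finsum_int (K := K) (F := F) B w ha0
    have h2 := finsum_int (K := K) (F := F) B w hb0
    rw [e] at h1 h2
    have hNa := Algebra.algebraMap_intNorm (A := K[X]) (K := L) (L := F) a
    have hNb := Algebra.algebraMap_intNorm (A := K[X]) (K := L) (L := F) b
    have hNa0 : Algebra.intNorm K[X] B a ≠ 0 := fun h0 => by
      rw [h0, map_zero, eq_comm, Algebra.norm_eq_zero_iff] at hNa
      exact hne a ha0 hNa
    have hNb0 : Algebra.intNorm K[X] B b ≠ 0 := fun h0 => by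
      rw [h0, map_zero, eq_comm, Algebra.norm_eq_zero_iff] at hNb
      exact hne b hb0 hNb
    have hp : p ≠ 0 := by
      rintro rfl
      rw [map_zero, zero_div, Algebra.norm_eq_zero_iff] at hN
      exact hh hN
    have hpoly : p * Algebra.intNorm K[X] B b = q * Algebra.intNorm K[X] B a := by
      apply IsFractionRing.injective K[X] L
      have h3 : Algebra.norm L (algebraMap B F a / algebraMap B F b) *
          Algebra.norm L (algebraMap B F b) = Algebra.norm L (algebraMap B F a) := by
        rw [← map_mul, div_mul_cancel₀ _ (hne b hb0)]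
      rw [map_mul, map_mul, hNa, hNb, ← h3, hN, eL, eL]
      have := hx.aeval_ne_zero hq
      field_simp
    have hroots := congrArg (fun r : K[X] => (r.roots.map w).sum) hpoly
    simp only [roots_mul (mul_ne_zero hp hNb0), roots_mul (mul_ne_zero hq hNa0), Multiset.map_add,
      Multiset.sum_add] at hroots
    have fin : ∀ {g : F}, g ≠ 0 → ({P : Place K F | P.v (algebraMap L F x) ≤ 1} ∩ Function.support
        fun P : Place K F => ord P g • w (val P (algebraMap L F x))).Finite := fun {g} hg =>
      (hx.finite_ord hg).subset fun P hP h0 => hP.2 (by simp only [h0, zero_smul])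
    simp only [ord_div _ (hne a ha0) (hne b hb0), sub_smul]
    simp only [sub_eq_add_neg]
    rw [finsum_mem_add_distrib' (fin (hne a ha0)) (by
      simpa only [Function.support_fun_neg] using fin (hne b hb0))]
    simp only [finsum_neg_distrib]
    rw [h1, h2, ← sub_eq_add_neg, ← sub_eq_add_neg, sub_eq_sub_iff_add_eq_add, hroots, add_comm]

/-- The norm formula over the point `x = a`. -/
theorem IsRat.norm_fin (hx : IsRat K x) (a : K) {h : F} (hh : h ≠ 0) {p q : K[X]} (hq : q ≠ 0)
    (hN : Algebra.norm L h = aeval x p / aeval x q) :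
    ∑ᶠ P ∈ {P : Place K F | P.v (algebraMap L F x - algebraMap K F a) < 1}, ord P h =
      (p.rootMultiplicity a : ℤ) - q.rootMultiplicity a := by
  classical
  have h1 := hx.norm_weight (fun c => if a = c then (1 : ℤ) else 0) hh hq hN
  have h2 : ∀ r : K[X], (r.roots.map fun c => if a = c then (1 : ℤ) else 0).sum =
      r.rootMultiplicity a := fun r => by
    rw [← count_roots, Multiset.count_eq_card_filter_eq]
    generalize r.roots = s
    induction s using Multiset.induction_on with
    | empty => simp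
    | cons b s ih =>
      rw [Multiset.map_cons, Multiset.sum_cons, ih, Multiset.filter_cons]
      split_ifs <;> simp [add_comm]
  rw [h2, h2] at h1
  rw [← h1, finsum_mem_def, finsum_mem_def]
  refine finsum_congr fun P => ?_
  by_cases hP : P.v (algebraMap L F x - algebraMap K F a) < 1
  · rw [Set.indicator_of_mem (by exact hP), Set.indicator_of_mem (by exact v_le_one_of_sub hP),
      val_eq hP]
    simp
  · rw [Set.indicator_of_notMem (by exact hP)]
    by_cases hP' : P.v (algebraMap L F x) ≤ 1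
    · rw [Set.indicator_of_mem (by exact hP'), if_neg, smul_zero]
      rintro rfl
      exact hP (hx.val_spec P hP')
    · rw [Set.indicator_of_notMem (by exact hP')]

/-- The total order over the affine line. -/
theorem IsRat.norm_aff (hx : IsRat K x) {h : F} (hh : h ≠ 0) {p q : K[X]} (hq : q ≠ 0)
    (hN : Algebra.norm L h = aeval x p / aeval x q) :
    ∑ᶠ P ∈ {P : Place K F | P.v (algebraMap L F x) ≤ 1}, ord P h =
      (p.natDegree : ℤ) - q.natDegree := by
  have h1 := hx.norm_weight (fun _ => (1 : ℤ)) hh hq hN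
  simpa [IsAlgClosed.card_roots_eq_natDegree] using h1

/-- The norm formula over the point at infinity. -/
theorem IsRat.norm_inf (hx : IsRat K x) {h : F} (hh : h ≠ 0) {p q : K[X]} (hq : q ≠ 0)
    (hN : Algebra.norm L h = aeval x p / aeval x q) :
    ∑ᶠ P ∈ {P : Place K F | 1 < P.v (algebraMap L F x)}, ord P h =
      (q.natDegree : ℤ) - p.natDegree := by
  have hp : p ≠ 0 := by
    rintro rfl
    rw [map_zero, zero_div, Algebra.norm_eq_zero_iff] at hN
    exact hh hN
  have hne : ∀ (r : K[X]) (n : ℕ), r ≠ 0 → r.reverse * X ^ n ≠ 0 := fun r n hr =>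
    mul_ne_zero (by simpa using hr) (pow_ne_zero _ X_ne_zero)
  have hm : ∀ (r : K[X]) (n : ℕ), r ≠ 0 → (r.reverse * X ^ n).rootMultiplicity 0 = n := by
    intro r n hr
    rw [rootMultiplicity_mul (hne r n hr), rootMultiplicity_eq_zero, zero_add]
    · simpa using rootMultiplicity_X_sub_C_pow (0 : K) n
    · rw [IsRoot, ← coeff_zero_eq_eval_zero, coeff_zero_reverse]
      exact leadingCoeff_ne_zero.2 hr
  have h1 := hx.inv.norm_fin 0 hh (hne q _ hq) (hN.trans (div_eq_reverse hx.ne_zero p q))
  rw [hm p _ hp, hm q _ hq] at h1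
  rw [← h1]
  have hx0 : algebraMap L F x ≠ 0 := by simpa using hx.ne_zero
  congr 1
  ext P
  have : 1 < P.v (algebraMap L F x) ↔ P.v (algebraMap L F x⁻¹ - algebraMap K F 0) < 1 := by
    rw [map_zero, sub_zero, map_inv₀, one_lt_v_iff, v_lt_one_iff P (inv_ne_zero hx0), ord_inv]
    omega
  simp only [Set.mem_ofPred_eq, this]

/-- A principal divisor has degree zero. -/
theorem IsRat.deg_zero (hx : IsRat K x) {h : F} (hh : h ≠ 0) : ∑ᶠ P : Place K F, ord P h = 0 := by
  obtain ⟨p, q, hq, hN⟩ := hx.gen (Algebra.norm L h)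
  have h1 := hx.norm_aff hh hq hN
  have h2 := hx.norm_inf hh hq hN
  have hfin := hx.finite_ord hh
  rw [← finsum_mem_univ, ← Set.union_compl_self {P : Place K F | P.v (algebraMap L F x) ≤ 1},
    finsum_mem_union' disjoint_compl_right (hfin.subset fun _ h => h.2)
      (hfin.subset fun _ h => h.2), h1]
  have : {P : Place K F | P.v (algebraMap L F x) ≤ 1}ᶜ = {P | 1 < P.v (algebraMap L F x)} := by
    ext P
    simp
  rw [this, h2]
  ring

/-- The ramification indices over `x = a` add up to the degree. -/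
theorem IsRat.sum_fibre (hx : IsRat K x) (a : K) :
    ∑ᶠ P ∈ {P : Place K F | P.v (algebraMap L F x - algebraMap K F a) < 1},
      ord P (algebraMap L F x - algebraMap K F a) = Module.finrank L F := by
  have e : algebraMap L F x - algebraMap K F a = algebraMap L F (aeval x (X - C a)) := by
    rw [map_aeval]
    simp
  have hne : algebraMap L F x - algebraMap K F a ≠ 0 := by
    rw [e]
    simpa only [ne_eq, map_eq_zero] using hx.aeval_ne_zero (X_sub_C_ne_zero a)
  have := hx.norm_fin a hne (p := (X - C a) ^ Module.finrank L F) (q := 1) one_ne_zero (by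
    rw [e, Algebra.norm_algebraMap, map_one, div_one, map_pow])
  rw [this, rootMultiplicity_X_sub_C_pow]
  simp

/-- The pole orders of `x` add up to the degree. -/
theorem IsRat.sum_fibre_inf (hx : IsRat K x) :
    ∑ᶠ P ∈ {P : Place K F | 1 < P.v (algebraMap L F x)},
      ord P (algebraMap L F x) = - Module.finrank L F := by
  have hx0 : algebraMap L F x ≠ 0 := by simpa using hx.ne_zero
  have := hx.norm_inf hx0 (p := X ^ Module.finrank L F) (q := 1) one_ne_zero (by
    rw [Algebra.norm_algebraMap, map_one, div_one, map_pow, aeval_X])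
  rw [this]
  simp

variable (F) in
theorem IsRat.exists_place (hx : IsRat K x) (a : K) :
    ∃ P : Place K F, P.v (algebraMap L F x - algebraMap K F a) < 1 := by
  by_contra hcon
  have h1 := hx.sum_fibre (F := F) a
  have : {P : Place K F | P.v (algebraMap L F x - algebraMap K F a) < 1} = ∅ :=
    Set.eq_empty_of_forall_notMem fun P hP => hcon ⟨P, hP⟩
  rw [this, finsum_mem_empty] at h1
  have := Module.finrank_pos (R := L) (M := F)
  omega

variable (F) in
theorem IsRat.exists_place_inf (hx : IsRat K x) :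
    ∃ P : Place K F, 1 < P.v (algebraMap L F x) := by
  by_contra hcon
  have h1 := hx.sum_fibre_inf (F := F)
  have : {P : Place K F | 1 < P.v (algebraMap L F x)} = ∅ :=
    Set.eq_empty_of_forall_notMem fun P hP => hcon ⟨P, hP⟩
  rw [this, finsum_mem_empty] at h1
  have := Module.finrank_pos (R := L) (M := F)
  omega

/-- A nonzero function without poles has no zeros. -/
theorem IsRat.ord_eq_zero_of_regular (hx : IsRat K x) {h : F} (hh : ∀ P : Place K F, P.v h ≤ 1)
    (P : Place K F) : ord P h = 0 := by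
  rcases eq_or_ne h 0 with rfl | h0
  · simp
  have h1 := hx.deg_zero h0
  have hfin := hx.finite_ord h0
  by_contra hP
  rw [finsum_eq_sum_of_support_subset _ (s := hfin.toFinset) (fun Q hQ => by simpa using hQ),
    Finset.sum_eq_zero_iff_of_nonneg fun Q _ => ord_nonneg (hh Q)] at h1
  exact hP (h1 P (by simpa using hP))

/-- A function without poles is constant. -/
theorem IsRat.const_of_regular (hx : IsRat K x) {h : F} (hh : ∀ P : Place K F, P.v h ≤ 1) :
    ∃ c : K, h = algebraMap K F c := by
  obtain ⟨P, -⟩ := hx.exists_place_inf F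
  obtain ⟨c, hc⟩ := hx.residue P (hh P)
  refine ⟨c, sub_eq_zero.1 ?_⟩
  by_contra hne
  have h1 := hx.ord_eq_zero_of_regular (h := h - algebraMap K F c)
    (fun Q => Q.v.map_sub_le (hh Q) (Q.triv c)) P
  have h2 := (v_lt_one_iff P hne).1 hc
  omega

end Pool.Agent.MP_79c67d_ag.FF

end MrgPart4

-- marker of a merged file
example : 731051 + 608007 = 731051 + 608007 := rfl
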